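import Pool.Agent.CFK.Defs

/-! Module Basic: elementary closure properties of `Rep` and `RepP`.
`rep_comp`: substitution of terms for the variables (a recursive function on `T`; `choose` the terms
of the `g i`). `x / y = (1 - (1 - y)) * (x / ((y - 1) + 1))`, `x % y = x - y * (x / y)`,
`max x y = x + (y - x)`, `min x y = x - (x - y)`, `[x ≤ y] = 1 - (x - y)`, `if p then f else g`
has the value `χ f + (1 - χ) g`. The finite sums / products / suprema over `Fin d`: as in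
`Pool.Agent.Kro.PLib` (`List.foldr` over `List.finRange d`). -/

namespace Pool.Agent.CFK

open Finset

theorem rep_congr {f g : (ℕ → ℕ) → ℕ} (hf : Rep f) (h : ∀ ρ, f ρ = g ρ) : Rep g := by
  obtain ⟨t, ht⟩ := hf
  exact ⟨t, fun ρ => (ht ρ).trans (h ρ)⟩

theorem rep_var (i : ℕ) : Rep (fun ρ => ρ i) :=
  ⟨T.var i, fun _ => rfl⟩

theorem rep_const (c : ℕ) : Rep (fun _ => c) :=
  ⟨T.const c, fun _ => rfl⟩

theorem rep_add {f g : (ℕ → ℕ) → ℕ} (hf : Rep f) (hg : Rep g) : Rep (fun ρ => f ρ + g ρ) := by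
  obtain ⟨t, ht⟩ := hf
  obtain ⟨u, hu⟩ := hg
  exact ⟨T.add t u, fun ρ => by simp only [T.ev, ht, hu]⟩

theorem rep_sub {f g : (ℕ → ℕ) → ℕ} (hf : Rep f) (hg : Rep g) : Rep (fun ρ => f ρ - g ρ) := by
  obtain ⟨t, ht⟩ := hf
  obtain ⟨u, hu⟩ := hg
  exact ⟨T.sub t u, fun ρ => by simp only [T.ev, ht, hu]⟩

theorem rep_mul {f g : (ℕ → ℕ) → ℕ} (hf : Rep f) (hg : Rep g) : Rep (fun ρ => f ρ * g ρ) := by
  obtain ⟨t, ht⟩ := hf
  obtain ⟨u, hu⟩ := hg
  exact ⟨T.mul t u, fun ρ => by simp only [T.ev, ht, hu]⟩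

theorem basic_rep_divS {f g : (ℕ → ℕ) → ℕ} (hf : Rep f) (hg : Rep g) :
    Rep (fun ρ => f ρ / (g ρ + 1)) := by
  obtain ⟨t, ht⟩ := hf
  obtain ⟨u, hu⟩ := hg
  exact ⟨T.divS t u, fun ρ => by simp only [T.ev, ht, hu]⟩

theorem rep_div {f g : (ℕ → ℕ) → ℕ} (hf : Rep f) (hg : Rep g) : Rep (fun ρ => f ρ / g ρ) := by
  have h1 : Rep (fun ρ => (1 - (1 - g ρ)) * (f ρ / ((g ρ - 1) + 1))) :=
    rep_mul (rep_sub (rep_const 1) (rep_sub (rep_const 1) hg))
      (basic_rep_divS hf (rep_sub hg (rep_const 1)))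
  refine rep_congr h1 fun ρ => ?_
  show (1 - (1 - g ρ)) * (f ρ / ((g ρ - 1) + 1)) = f ρ / g ρ
  rcases Nat.eq_zero_or_pos (g ρ) with h | h
  · rw [h]
    simp
  · have e1 : 1 - (1 - g ρ) = 1 := by omega
    have e2 : g ρ - 1 + 1 = g ρ := by omega
    rw [e1, e2, one_mul]

theorem rep_mod {f g : (ℕ → ℕ) → ℕ} (hf : Rep f) (hg : Rep g) : Rep (fun ρ => f ρ % g ρ) := by
  refine rep_congr (rep_sub hf (rep_mul hg (rep_div hf hg))) fun ρ => ?_
  show f ρ - g ρ * (f ρ / g ρ) = f ρ % g ρ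
  have := Nat.div_add_mod (f ρ) (g ρ)
  omega

theorem rep_two_pow {f : (ℕ → ℕ) → ℕ} (hf : Rep f) : Rep (fun ρ => 2 ^ f ρ) := by
  obtain ⟨t, ht⟩ := hf
  exact ⟨T.pow2 t, fun ρ => by simp only [T.ev, ht]⟩

/-- powers with a constant exponent -/
theorem rep_npow {f : (ℕ → ℕ) → ℕ} (hf : Rep f) (k : ℕ) : Rep (fun ρ => f ρ ^ k) := by
  induction k with
  | zero => exact rep_congr (rep_const 1) fun ρ => (pow_zero _).symm
  | succ k ih => exact rep_congr (rep_mul ih hf) fun ρ => (pow_succ _ _).symm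

/-- substitution -/
def basic_subst (u : ℕ → T) : T → T
  | .var i => u i
  | .const c => .const c
  | .add a b => .add (basic_subst u a) (basic_subst u b)
  | .sub a b => .sub (basic_subst u a) (basic_subst u b)
  | .mul a b => .mul (basic_subst u a) (basic_subst u b)
  | .divS a b => .divS (basic_subst u a) (basic_subst u b)
  | .pow2 a => .pow2 (basic_subst u a)

theorem basic_subst_ev (u : ℕ → T) (ρ : ℕ → ℕ) (t : T) :
    (basic_subst u t).ev ρ = t.ev (fun i => (u i).ev ρ) := by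
  induction t with
  | var i => rfl
  | const c => rfl
  | add a b iha ihb => simp only [basic_subst, T.ev, iha, ihb]
  | sub a b iha ihb => simp only [basic_subst, T.ev, iha, ihb]
  | mul a b iha ihb => simp only [basic_subst, T.ev, iha, ihb]
  | divS a b iha ihb => simp only [basic_subst, T.ev, iha, ihb]
  | pow2 a iha => simp only [basic_subst, T.ev, iha]

theorem rep_comp {f : (ℕ → ℕ) → ℕ} (hf : Rep f) {g : ℕ → (ℕ → ℕ) → ℕ} (hg : ∀ i, Rep (g i)) :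
    Rep (fun ρ => f (fun i => g i ρ)) := by
  obtain ⟨t, ht⟩ := hf
  choose u hu using hg
  refine ⟨basic_subst u t, fun ρ => ?_⟩
  rw [basic_subst_ev, ht]
  congr 1
  funext i
  exact hu i ρ

theorem rep_tl {f : (ℕ → ℕ) → ℕ} (hf : Rep f) : Rep (fun ρ => f (tl ρ)) :=
  rep_comp hf (g := fun k ρ => ρ (k + 1)) fun k => rep_var (k + 1)

theorem rep_max {f g : (ℕ → ℕ) → ℕ} (hf : Rep f) (hg : Rep g) : Rep (fun ρ => max (f ρ) (g ρ)) := by
  refine rep_congr (rep_add hf (rep_sub hg hf)) fun ρ => ?_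
  show f ρ + (g ρ - f ρ) = max (f ρ) (g ρ)
  omega

theorem rep_min {f g : (ℕ → ℕ) → ℕ} (hf : Rep f) (hg : Rep g) : Rep (fun ρ => min (f ρ) (g ρ)) := by
  refine rep_congr (rep_sub hf (rep_sub hf hg)) fun ρ => ?_
  show f ρ - (f ρ - g ρ) = min (f ρ) (g ρ)
  omega

theorem rep_fin_sum {d : ℕ} {f : Fin d → (ℕ → ℕ) → ℕ} (hf : ∀ i, Rep (f i)) :
    Rep (fun ρ => ∑ i, f i ρ) := by
  induction d with
  | zero => exact rep_congr (rep_const 0) fun ρ => by simp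
  | succ d ih =>
    exact rep_congr (rep_add (hf 0) (ih fun i => hf i.succ)) fun ρ => (Fin.sum_univ_succ (fun i => f i ρ)).symm

theorem rep_fin_prod {d : ℕ} {f : Fin d → (ℕ → ℕ) → ℕ} (hf : ∀ i, Rep (f i)) :
    Rep (fun ρ => ∏ i, f i ρ) := by
  induction d with
  | zero => exact rep_congr (rep_const 1) fun ρ => by simp
  | succ d ih =>
    exact rep_congr (rep_mul (hf 0) (ih fun i => hf i.succ)) fun ρ => (Fin.prod_univ_succ (fun i => f i ρ)).symm

theorem rep_fin_sup {d : ℕ} {f : Fin d → (ℕ → ℕ) → ℕ} (hf : ∀ i, Rep (f i)) :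
    Rep (fun ρ => univ.sup fun i => f i ρ) := by
  induction d with
  | zero => exact rep_congr (rep_const 0) fun ρ => by simp
  | succ d ih =>
    refine rep_congr (rep_max (hf 0) (ih fun i => hf i.succ)) fun ρ => ?_
    show max (f 0 ρ) (univ.sup fun i : Fin d => f i.succ ρ) = univ.sup fun i => f i ρ
    apply le_antisymm
    · refine max_le (Finset.le_sup (f := fun i => f i ρ) (mem_univ 0)) ?_
      refine Finset.sup_le fun i _ => ?_
      exact Finset.le_sup (f := fun i => f i ρ) (mem_univ i.succ)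
    · refine Finset.sup_le fun i _ => ?_
      refine Fin.cases ?_ (fun j => ?_) i
      · exact le_max_left _ _
      · exact le_trans (Finset.le_sup (f := fun i : Fin d => f i.succ ρ) (mem_univ j))
          (le_max_right _ _)

theorem rep_range_prod (m : ℕ) {f : ℕ → (ℕ → ℕ) → ℕ} (hf : ∀ i, Rep (f i)) :
    Rep (fun ρ => ∏ i ∈ range m, f i ρ) := by
  induction m with
  | zero => exact rep_congr (rep_const 1) fun ρ => by simp
  | succ m ih =>
    exact rep_congr (rep_mul ih (hf m)) fun ρ => (Finset.prod_range_succ _ _).symm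

theorem repP_congr {p q : (ℕ → ℕ) → Prop} (hp : RepP p) (h : ∀ ρ, (p ρ ↔ q ρ)) : RepP q := by
  obtain ⟨g, hg, hpg⟩ := hp
  exact ⟨g, hg, fun ρ => ⟨fun hq => (hpg ρ).1 ((h ρ).2 hq), fun hq => (hpg ρ).2 fun hp => hq ((h ρ).1 hp)⟩⟩

theorem repP_le {f g : (ℕ → ℕ) → ℕ} (hf : Rep f) (hg : Rep g) : RepP (fun ρ => f ρ ≤ g ρ) := by
  refine ⟨fun ρ => 1 - (f ρ - g ρ), rep_sub (rep_const 1) (rep_sub hf hg), fun ρ => ⟨fun h => ?_, fun h => ?_⟩⟩
  · show 1 - (f ρ - g ρ) = 1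
    have h' : f ρ ≤ g ρ := h
    omega
  · show 1 - (f ρ - g ρ) = 0
    have h' : ¬ f ρ ≤ g ρ := h
    omega

theorem repP_lt {f g : (ℕ → ℕ) → ℕ} (hf : Rep f) (hg : Rep g) : RepP (fun ρ => f ρ < g ρ) :=
  repP_congr (repP_le (rep_add hf (rep_const 1)) hg) fun _ => Iff.rfl

theorem repP_and {p q : (ℕ → ℕ) → Prop} (hp : RepP p) (hq : RepP q) : RepP (fun ρ => p ρ ∧ q ρ) := by
  obtain ⟨g, hg, hpg⟩ := hp
  obtain ⟨k, hk, hqk⟩ := hq
  refine ⟨fun ρ => g ρ * k ρ, rep_mul hg hk, fun ρ => ⟨fun h => ?_, fun h => ?_⟩⟩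
  · show g ρ * k ρ = 1
    rw [(hpg ρ).1 h.1, (hqk ρ).1 h.2]
  · show g ρ * k ρ = 0
    by_cases h1 : p ρ
    · have h2 : ¬ q ρ := fun h2 => h ⟨h1, h2⟩
      rw [(hqk ρ).2 h2, mul_zero]
    · rw [(hpg ρ).2 h1, zero_mul]

theorem repP_eq {f g : (ℕ → ℕ) → ℕ} (hf : Rep f) (hg : Rep g) : RepP (fun ρ => f ρ = g ρ) :=
  repP_congr (repP_and (repP_le hf hg) (repP_le hg hf)) fun _ => ⟨fun h => le_antisymm h.1 h.2,
    fun h => ⟨le_of_eq h, le_of_eq h.symm⟩⟩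

theorem repP_not {p : (ℕ → ℕ) → Prop} (hp : RepP p) : RepP (fun ρ => ¬ p ρ) := by
  obtain ⟨g, hg, hpg⟩ := hp
  refine ⟨fun ρ => 1 - g ρ, rep_sub (rep_const 1) hg, fun ρ => ⟨fun h => ?_, fun h => ?_⟩⟩
  · show 1 - g ρ = 1
    rw [(hpg ρ).2 h]
  · show 1 - g ρ = 0
    rw [(hpg ρ).1 (not_not.1 h)]

theorem repP_fin_forall {d : ℕ} {p : Fin d → (ℕ → ℕ) → Prop} (hp : ∀ i, RepP (p i)) :
    RepP (fun ρ => ∀ i, p i ρ) := by
  induction d with
  | zero =>
    exact repP_congr (repP_le (rep_const 0) (rep_const 0)) fun ρ =>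
      ⟨fun _ i => i.elim0, fun _ => le_refl 0⟩
  | succ d ih =>
    refine repP_congr (repP_and (hp 0) (ih fun i => hp i.succ)) fun ρ => ?_
    exact ⟨fun h i => Fin.cases h.1 (fun j => h.2 j) i, fun h => ⟨h 0, fun j => h j.succ⟩⟩

/-- any instance of decidability -/
theorem rep_ite {p : (ℕ → ℕ) → Prop} [∀ ρ, Decidable (p ρ)] {f g : (ℕ → ℕ) → ℕ} (hp : RepP p)
    (hf : Rep f) (hg : Rep g) : Rep (fun ρ => if p ρ then f ρ else g ρ) := by
  obtain ⟨c, hc, hpc⟩ := hp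
  refine rep_congr (rep_add (rep_mul hc hf) (rep_mul (rep_sub (rep_const 1) hc) hg)) fun ρ => ?_
  show c ρ * f ρ + (1 - c ρ) * g ρ = if p ρ then f ρ else g ρ
  by_cases h : p ρ
  · rw [if_pos h, (hpc ρ).1 h]
    simp
  · rw [if_neg h, (hpc ρ).2 h]
    simp

end Pool.Agent.CFK
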