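import Pool.Agent.CFK.Defs

/-! Module Vec: numbers `j < B ^ m` and vectors of digits. Everything by induction on `m`
(`range (B ^ (m + 1))`: `j = j' + B ^ m * x`, `j' < B ^ m`, `x < B`). -/

namespace Pool.Agent.CFK

open Finset

theorem vec_lt (B j k : ℕ) (hB : 1 ≤ B) : vec B j k < B := Nat.mod_lt _ hB

theorem vec_top (B m j k : ℕ) (hj : j < B ^ m) (hk : m ≤ k) (hB : 1 ≤ B) : vec B j k = 0 := by
  unfold vec
  rw [Nat.div_eq_of_lt (lt_of_lt_of_le hj (Nat.pow_le_pow_right hB hk)), Nat.zero_mod]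

theorem vec_low (B m j x k : ℕ) (hB : 1 ≤ B) (hk : k < m) : vec B (j + B ^ m * x) k = vec B j k := by
  unfold vec
  obtain ⟨l, rfl⟩ : ∃ l, m = k + (l + 1) := ⟨m - k - 1, by omega⟩
  have h1 : B ^ (k + (l + 1)) * x = B ^ k * (B * (B ^ l * x)) := by
    rw [pow_add, pow_succ]
    ring
  have hp : 0 < B ^ k := Nat.pow_pos hB
  rw [h1, Nat.add_mul_div_left _ _ hp, Nat.add_mul_mod_self_left]

theorem vec_high (B m j x : ℕ) (hB : 1 ≤ B) (hj : j < B ^ m) (hx : x < B) :
    vec B (j + B ^ m * x) m = x := by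
  unfold vec
  have hp : 0 < B ^ m := Nat.pow_pos hB
  rw [Nat.add_mul_div_left _ _ hp, Nat.div_eq_of_lt hj, Nat.zero_add, Nat.mod_eq_of_lt hx]

theorem vec_sum_blocks (a n : ℕ) (F : ℕ → ℕ) :
    ∑ j ∈ range (a * n), F j = ∑ x ∈ range n, ∑ j ∈ range a, F (j + a * x) := by
  induction n with
  | zero => simp
  | succ n ih =>
    rw [Nat.mul_succ, sum_range_add, ih, sum_range_succ]
    congr 1
    apply sum_congr rfl
    intro j _
    rw [add_comm]

theorem sum_prod_vec (B m : ℕ) (hB : 1 ≤ B) (g : ℕ → ℕ → ℕ) :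
    ∑ j ∈ range (B ^ m), ∏ k ∈ range m, g k (vec B j k) = ∏ k ∈ range m, ∑ x ∈ range B, g k x := by
  induction m with
  | zero => simp
  | succ m ih =>
    rw [pow_succ, vec_sum_blocks, prod_range_succ, ← ih, sum_mul_sum, sum_comm]
    apply sum_congr rfl
    intro j hj
    apply sum_congr rfl
    intro x hx
    rw [mem_range] at hj hx
    rw [prod_range_succ, vec_high B m j x hB hj hx]
    congr 1
    apply prod_congr rfl
    intro k hk
    rw [vec_low B m j x k hB (mem_range.1 hk)]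

theorem vec_split (B m j : ℕ) (hj : j < B ^ (m + 1)) :
    j = j % B ^ m + B ^ m * (j / B ^ m) ∧ j % B ^ m < B ^ m ∧ j / B ^ m < B := by
  have hp : 0 < B ^ m := by
    rcases Nat.eq_zero_or_pos (B ^ m) with h | h
    · rw [pow_succ, h] at hj
      omega
    · exact h
  refine ⟨(Nat.mod_add_div j (B ^ m)).symm, Nat.mod_lt _ hp, ?_⟩
  rw [Nat.div_lt_iff_lt_mul hp]
  rw [pow_succ] at hj
  linarith [mul_comm B (B ^ m)]

theorem eq_sum_vec (B m j : ℕ) (hj : j < B ^ m) : j = ∑ k ∈ range m, vec B j k * B ^ k := by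
  induction m generalizing j with
  | zero =>
    simp at hj
    simp [hj]
  | succ m ih =>
    obtain ⟨h1, h2, h3⟩ := vec_split B m j hj
    have hB : 1 ≤ B := Nat.one_le_iff_ne_zero.2 (Nat.ne_of_gt (Nat.zero_lt_of_lt h3))
    have h4 := ih (j % B ^ m) h2
    have h5 : ∀ k ∈ range m, vec B j k * B ^ k = vec B (j % B ^ m) k * B ^ k := by
      intro k hk
      conv_lhs => rw [h1]
      rw [vec_low B m _ _ k hB (mem_range.1 hk)]
    have h6 : vec B j m = j / B ^ m := by
      conv_lhs => rw [h1]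
      exact vec_high B m _ _ hB h2 h3
    rw [sum_range_succ, sum_congr rfl h5, ← h4, h6]
    conv_lhs => rw [h1]
    ring

theorem vec_inj (B m j j' : ℕ) (hj : j < B ^ m) (hj' : j' < B ^ m)
    (h : ∀ k < m, vec B j k = vec B j' k) : j = j' := by
  rw [eq_sum_vec B m j hj, eq_sum_vec B m j' hj']
  apply sum_congr rfl
  intro k hk
  rw [h k (mem_range.1 hk)]

theorem vec_surj (B m : ℕ) (v : ℕ → ℕ) (hv : ∀ k < m, v k < B) :
    ∃ j < B ^ m, ∀ k < m, vec B j k = v k := by
  induction m with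
  | zero => exact ⟨0, by simp, by intro k hk; omega⟩
  | succ m ih =>
    obtain ⟨j, hj, hjv⟩ := ih (fun k hk => hv k (by omega))
    have hm := hv m (by omega)
    have hB : 1 ≤ B := by omega
    refine ⟨j + B ^ m * v m, ?_, ?_⟩
    · rw [pow_succ]
      nlinarith
    · intro k hk
      rcases Nat.lt_or_ge k m with h | h
      · rw [vec_low B m j _ k hB h]
        exact hjv k h
      · have : k = m := by omega
        subst this
        exact vec_high B k j _ hB hj hm

end Pool.Agent.CFK
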