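import Pool.Agent.CFK.Geo
import Pool.Agent.CFK.Vec

/-! Module Box: exponential polynomials. `box_sum`: induction on `EP`; for a monomial
`W ^ j = ∏ (W ^ (B ^ k)) ^ (vec B j k)` (`eq_sum_vec`), `sum_prod_vec`, `rep_geo` with
`q = W ^ (B ^ k) ≥ 2`. `ep_v1`, `ep_v2`, `ep_v3`: take `μ` = `F1.one` except at the given indices
(`Function.update`), `Finset.prod_update_of_mem` or `Finset.prod_eq_single`/`prod_pow_boole`. -/

namespace Pool.Agent.CFK

open Finset

theorem box_pow_eq (B m j W : ℕ) (hj : j < B ^ m) :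
    W ^ j = ∏ k ∈ range m, (W ^ (B ^ k)) ^ (vec B j k) := by
  have h1 : W ^ j = W ^ (∑ k ∈ range m, vec B j k * B ^ k) := by
    rw [← eq_sum_vec B m j hj]
  rw [h1, ← Finset.prod_pow_eq_pow_sum]
  refine Finset.prod_congr rfl fun k _ => ?_
  rw [← pow_mul, Nat.mul_comm]

theorem box_mono_sum (B m W c : ℕ) (hB : 1 ≤ B) (μ : ℕ → F1) :
    ∑ j ∈ range (B ^ m), (c * ∏ k ∈ range m, (μ k).ev (vec B j k)) * W ^ j =
      c * ∏ k ∈ range m, ∑ x ∈ range B, (μ k).ev x * (W ^ (B ^ k)) ^ x := by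
  have h1 := sum_prod_vec B m hB (fun k x => (μ k).ev x * (W ^ (B ^ k)) ^ x)
  rw [← h1, Finset.mul_sum]
  refine Finset.sum_congr rfl fun j hj => ?_
  have hj' : j < B ^ m := Finset.mem_range.1 hj
  rw [Finset.prod_mul_distrib, ← box_pow_eq B m j W hj', mul_assoc]

theorem box_sum {m : ℕ} {F : (ℕ → ℕ) → (ℕ → ℕ) → ℕ} (hF : EP m F) {B W : (ℕ → ℕ) → ℕ}
    (hB : Rep B) (hW : Rep W) (hB1 : ∀ ρ, 1 ≤ B ρ) (hW2 : ∀ ρ, 2 ≤ W ρ) :
    Rep (fun ρ => ∑ j ∈ range (B ρ ^ m), F ρ (vec (B ρ) j) * W ρ ^ j) := by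
  induction hF with
  | @mono c hc μ =>
    have hq : ∀ k : ℕ, Rep (fun ρ => W ρ ^ (B ρ ^ k)) := fun k => rep_pow hW (rep_npow hB k)
    have h2 : ∀ (k : ℕ) (ρ : ℕ → ℕ), 2 ≤ W ρ ^ (B ρ ^ k) := by
      intro k ρ
      have h3 : 1 ≤ B ρ ^ k := Nat.one_le_pow _ _ (hB1 ρ)
      calc 2 ≤ W ρ := hW2 ρ
        _ = W ρ ^ 1 := (pow_one _).symm
        _ ≤ W ρ ^ (B ρ ^ k) := Nat.pow_le_pow_right (le_trans (by norm_num) (hW2 ρ)) h3
    have hg : ∀ k : ℕ, Rep (fun ρ => ∑ x ∈ range (B ρ), (μ k).ev x * (W ρ ^ (B ρ ^ k)) ^ x) :=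
      fun k => rep_geo (μ k) (hq k) (h2 k) hB
    refine rep_congr (rep_mul hc (rep_range_prod m hg)) fun ρ => ?_
    exact (box_mono_sum (B ρ) m (W ρ) (c ρ) (hB1 ρ) μ).symm
  | add hF hG ihF ihG =>
    refine rep_congr (rep_add ihF ihG) fun ρ => ?_
    rw [← Finset.sum_add_distrib]
    exact Finset.sum_congr rfl fun j _ => (add_mul _ _ _).symm

theorem box_ev_mono (φ : F1) {x y : ℕ} (h : x ≤ y) : φ.ev x ≤ φ.ev y := by
  cases φ with
  | one => exact le_refl _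
  | id => exact h
  | sq => exact Nat.pow_le_pow_left h 2
  | p2 => exact Nat.pow_le_pow_right (by norm_num) h
  | p4 => exact Nat.pow_le_pow_right (by norm_num) h

theorem ep_mono_le {m : ℕ} {F : (ℕ → ℕ) → (ℕ → ℕ) → ℕ} (hF : EP m F) (ρ v v' : ℕ → ℕ)
    (h : ∀ k < m, v k ≤ v' k) : F ρ v ≤ F ρ v' := by
  induction hF with
  | @mono c hc μ =>
    refine Nat.mul_le_mul_left _ (Finset.prod_le_prod' fun k hk => ?_)
    exact box_ev_mono (μ k) (h k (Finset.mem_range.1 hk))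
  | add hF hG ihF ihG => exact Nat.add_le_add ihF ihG

theorem box_rep_ev (φ : F1) {B : (ℕ → ℕ) → ℕ} (hB : Rep B) : Rep (fun ρ => φ.ev (B ρ)) := by
  cases φ with
  | one => exact rep_const 1
  | id => exact hB
  | sq => exact rep_npow hB 2
  | p2 => exact rep_two_pow hB
  | p4 => exact rep_pow (rep_const 4) hB

/-- the value at a constant vector is representable -/
theorem ep_const {m : ℕ} {F : (ℕ → ℕ) → (ℕ → ℕ) → ℕ} (hF : EP m F) {B : (ℕ → ℕ) → ℕ}
    (hB : Rep B) : Rep (fun ρ => F ρ (fun _ => B ρ)) := by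
  induction hF with
  | @mono c hc μ => exact rep_mul hc (rep_range_prod m fun k => box_rep_ev (μ k) hB)
  | add hF hG ihF ihG => exact rep_add ihF ihG

/-- change of the parameters -/
theorem ep_tl {m : ℕ} {F : (ℕ → ℕ) → (ℕ → ℕ) → ℕ} (hF : EP m F) :
    EP m (fun ρ v => F (tl ρ) v) := by
  induction hF with
  | @mono c hc μ => exact EP.mono (rep_tl hc) μ
  | add hF hG ihF ihG => exact EP.add ihF ihG

theorem box_prod_update (m i : ℕ) (hi : i < m) (μ : ℕ → F1) (hμ : μ i = F1.one) (φ : F1)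
    (v : ℕ → ℕ) : ∏ k ∈ range m, (Function.update μ i φ k).ev (v k) =
      (∏ k ∈ range m, (μ k).ev (v k)) * φ.ev (v i) := by
  have hi' : i ∈ range m := Finset.mem_range.2 hi
  rw [← Finset.mul_prod_erase (range m) (fun k => (Function.update μ i φ k).ev (v k)) hi',
    ← Finset.mul_prod_erase (range m) (fun k => (μ k).ev (v k)) hi']
  have h1 : ∏ k ∈ (range m).erase i, (Function.update μ i φ k).ev (v k) =
      ∏ k ∈ (range m).erase i, (μ k).ev (v k) := by
    refine Finset.prod_congr rfl fun k hk => ?_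
    rw [Function.update_of_ne (Finset.ne_of_mem_erase hk)]
  have h2 : (μ i).ev (v i) = 1 := by rw [hμ]; rfl
  have h3 : (Function.update μ i φ i).ev (v i) = φ.ev (v i) := by rw [Function.update_self]
  simp only [h1, h2, h3, one_mul]
  exact Nat.mul_comm _ _

theorem box_prod_one (m : ℕ) (v : ℕ → ℕ) :
    ∏ k ∈ range m, ((fun _ => F1.one : ℕ → F1) k).ev (v k) = 1 :=
  Finset.prod_eq_one fun _ _ => rfl

theorem box_ep_congr {m : ℕ} {F G : (ℕ → ℕ) → (ℕ → ℕ) → ℕ} (hF : EP m F)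
    (h : ∀ ρ v, F ρ v = G ρ v) : EP m G := by
  have h1 : F = G := funext fun ρ => funext fun v => h ρ v
  exact h1 ▸ hF

theorem ep_v0 (m : ℕ) {c : (ℕ → ℕ) → ℕ} (hc : Rep c) : EP m (fun ρ _ => c ρ) := by
  refine box_ep_congr (EP.mono hc (fun _ => F1.one)) fun ρ v => ?_
  rw [box_prod_one m v, mul_one]

theorem ep_v1 {m : ℕ} {c : (ℕ → ℕ) → ℕ} (hc : Rep c) (φ : F1) {i : ℕ} (hi : i < m) :
    EP m (fun ρ v => c ρ * φ.ev (v i)) := by
  refine box_ep_congr (EP.mono hc (Function.update (fun _ => F1.one) i φ)) fun ρ v => ?_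
  rw [box_prod_update m i hi (fun _ => F1.one) rfl φ v, box_prod_one m v, one_mul]

theorem ep_v2 {m : ℕ} {c : (ℕ → ℕ) → ℕ} (hc : Rep c) (φ ψ : F1) {i j : ℕ} (hi : i < m)
    (hj : j < m) (hij : i ≠ j) : EP m (fun ρ v => c ρ * (φ.ev (v i) * ψ.ev (v j))) := by
  refine box_ep_congr (EP.mono hc (Function.update (Function.update (fun _ => F1.one) i φ) j ψ))
    fun ρ v => ?_
  rw [box_prod_update m j hj (Function.update (fun _ => F1.one) i φ)
      (Function.update_of_ne hij.symm _ _) ψ v,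
    box_prod_update m i hi (fun _ => F1.one) rfl φ v, box_prod_one m v, one_mul]

theorem ep_v3 {m : ℕ} {c : (ℕ → ℕ) → ℕ} (hc : Rep c) (φ ψ χ : F1) {i j k : ℕ} (hi : i < m)
    (hj : j < m) (hk : k < m) (hij : i ≠ j) (hik : i ≠ k) (hjk : j ≠ k) :
    EP m (fun ρ v => c ρ * (φ.ev (v i) * ψ.ev (v j) * χ.ev (v k))) := by
  refine box_ep_congr (EP.mono hc (Function.update
    (Function.update (Function.update (fun _ => F1.one) i φ) j ψ) k χ)) fun ρ v => ?_
  rw [box_prod_update m k hk (Function.update (Function.update (fun _ => F1.one) i φ) j ψ)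
      (by rw [Function.update_of_ne hjk.symm, Function.update_of_ne hik.symm]) χ v,
    box_prod_update m j hj (Function.update (fun _ => F1.one) i φ)
      (Function.update_of_ne hij.symm _ _) ψ v,
    box_prod_update m i hi (fun _ => F1.one) rfl φ v, box_prod_one m v, one_mul]

end Pool.Agent.CFK
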