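import Pool.Agent.CFK.Ham

/-! Module CHw: `D j = (2^u - 1) P j < 2^(2u)`, `hw (D j) = u` if `P j > 0` (`hw_mul`) and `0` otherwise;
`hw_sum` with `w = 2 u` (`(2 ^ (2 * u)) ^ j = 2 ^ (2 * u * j)`). -/

namespace Pool.Agent.CFK

open Finset

/-- zeros are counted by a Hamming weight -/
theorem cnt_hw (N u : ℕ) (P : ℕ → ℕ) (hu : 1 ≤ u) (hP : ∀ j < N, P j < 2 ^ u) :
    N - hw (∑ j ∈ range N, (2 ^ u - 1) * P j * (2 ^ (2 * u)) ^ j) / u
      = ((range N).filter fun j => P j = 0).card := by
  have h2 : 0 < 2 ^ u := Nat.pos_of_ne_zero (by positivity)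
  have hD : ∀ j < N, (2 ^ u - 1) * P j < 2 ^ (2 * u) := by
    intro j hj
    have h1 := hP j hj
    calc (2 ^ u - 1) * P j ≤ 2 ^ u * P j := Nat.mul_le_mul_right _ (Nat.sub_le _ _)
      _ < 2 ^ u * 2 ^ u := (Nat.mul_lt_mul_left h2).2 h1
      _ = 2 ^ (2 * u) := by rw [← pow_add, two_mul]
  have hs : ∑ j ∈ range N, (2 ^ u - 1) * P j * (2 ^ (2 * u)) ^ j =
      ∑ j ∈ range N, ((2 ^ u - 1) * P j) * 2 ^ (2 * u * j) :=
    Finset.sum_congr rfl fun j _ => by rw [← pow_mul]
  have hh : ∀ j ∈ range N, hw ((2 ^ u - 1) * P j) = if P j = 0 then 0 else u := by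
    intro j hj
    by_cases h0 : P j = 0
    · rw [if_pos h0, h0, mul_zero, hw_zero]
    · rw [if_neg h0]
      exact hw_mul u (P j) (Nat.one_le_iff_ne_zero.2 h0) (hP j (Finset.mem_range.1 hj)).le
  rw [hs, hw_sum (2 * u) N (fun j => (2 ^ u - 1) * P j) hD, Finset.sum_congr rfl hh]
  have hc : ∀ M : ℕ, (∑ j ∈ range M, if P j = 0 then 0 else u) +
      u * ((range M).filter fun j => P j = 0).card = u * M := by
    intro M
    induction M with
    | zero => simp
    | succ M ih =>
      rw [Finset.sum_range_succ, Finset.range_add_one, Finset.filter_insert]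
      by_cases h0 : P M = 0
      · rw [if_pos h0, if_pos h0, Finset.card_insert_of_notMem (by simp), mul_add, mul_one]
        rw [Nat.mul_add, Nat.mul_one]
        omega
      · rw [if_neg h0, if_neg h0, Nat.mul_add, Nat.mul_one]
        omega
  have h3 := hc N
  have hle : ((range N).filter fun j => P j = 0).card ≤ N := by
    calc ((range N).filter fun j => P j = 0).card ≤ (range N).card := Finset.card_filter_le _ _
      _ = N := Finset.card_range N
  have h4 : (∑ j ∈ range N, if P j = 0 then 0 else u) =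
      u * (N - ((range N).filter fun j => P j = 0).card) := by
    rw [Nat.mul_sub]
    omega
  rw [h4, Nat.mul_div_cancel_left _ (by omega)]
  omega

end Pool.Agent.CFK
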