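import Pool.Agent.CFK.Defs

/-! Module Err: `Pp - Pm` is a sum of squares (and of the product `v s * v (s + 1)` for `sub`) which
vanishes iff the system holds. Induction on `t`, generalise `s`; in `ℤ`:
`(z - x - y)^2`, `(x + w - y - z)^2 + z w`, `(z - x y)^2`, `((y + 1) z + r - x)^2 + (r + r' - y)^2`,
`(z - 2^x)^2` (`4^x = (2^x)^2`). Prove both statements together: `Pm ≤ Pp ∧ (Pp = Pm ↔ Sat)`. -/

namespace Pool.Agent.CFK

open Finset

private theorem err_sq {P M : ℕ} {e : ℤ} {p : Prop} (h : (P : ℤ) = M + e ^ 2) (hp : e = 0 ↔ p) :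
    M ≤ P ∧ (P = M ↔ p) := by
  have h0 : (0 : ℤ) ≤ e ^ 2 := sq_nonneg e
  refine ⟨by zify; linarith, ?_⟩
  rw [← hp]
  constructor
  · intro h1
    rw [h1] at h
    exact pow_eq_zero_iff (two_ne_zero) |>.1 (by linarith)
  · intro h1
    rw [h1] at h
    zify
    linarith [h]

private theorem err_two {P M A A' : ℕ} {p a : Prop} (h : M ≤ P ∧ (P = M ↔ p))
    (hA : A' ≤ A ∧ (A = A' ↔ a)) : M + A' ≤ P + A ∧ (P + A = M + A' ↔ p ∧ a) := by
  obtain ⟨h1, h2⟩ := h
  obtain ⟨h3, h4⟩ := hA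
  refine ⟨by omega, ?_⟩
  rw [← h2, ← h4]
  omega

private theorem err_three {P M A A' B B' : ℕ} {p a b : Prop} (h : M ≤ P ∧ (P = M ↔ p))
    (hA : A' ≤ A ∧ (A = A' ↔ a)) (hB : B' ≤ B ∧ (B = B' ↔ b)) :
    M + A' + B' ≤ P + A + B ∧ (P + A + B = M + A' + B' ↔ p ∧ a ∧ b) := by
  have h1 := err_two (err_two h hA) hB
  rwa [and_assoc] at h1

theorem err_all (t : T) (s : ℕ) (ρ v : ℕ → ℕ) :
    Pm t s ρ v ≤ Pp t s ρ v ∧ (Pp t s ρ v = Pm t s ρ v ↔ Sat t s ρ v) := by
  induction t generalizing s with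
  | var i =>
    cases i with
    | zero =>
      refine err_sq (e := (v s : ℤ) - v 0) ?_ ?_
      · simp only [Pp, Pm]; push_cast; ring
      · simp only [Sat]; omega
    | succ i =>
      refine err_sq (e := (v s : ℤ) - ρ i) ?_ ?_
      · simp only [Pp, Pm]; push_cast; ring
      · simp only [Sat]; omega
  | const c =>
    refine err_sq (e := (v s : ℤ) - c) ?_ ?_
    · simp only [Pp, Pm]; push_cast; ring
    · simp only [Sat]; omega
  | add a b iha ihb =>
    refine err_three (err_sq (e := (v s : ℤ) - v (s + 1) - v (s + 1 + a.size)) ?_ ?_) (iha _) (ihb _)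
    · push_cast; ring
    · omega
  | sub a b iha ihb =>
    have h2 : (2 * (v (s + 2) * v (s + 2 + a.size)) + 2 * (v (s + 2) * v s) +
        2 * (v (s + 1) * v (s + 2 + a.size)) + 2 * (v (s + 1) * v s)) ≤
        v (s + 2) ^ 2 + v (s + 1) ^ 2 + v (s + 2 + a.size) ^ 2 + v s ^ 2 +
        2 * (v (s + 2) * v (s + 1)) + 2 * (v (s + 2 + a.size) * v s) ∧
        (v (s + 2) ^ 2 + v (s + 1) ^ 2 + v (s + 2 + a.size) ^ 2 + v s ^ 2 +
        2 * (v (s + 2) * v (s + 1)) + 2 * (v (s + 2 + a.size) * v s) =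
        (2 * (v (s + 2) * v (s + 2 + a.size)) + 2 * (v (s + 2) * v s) +
        2 * (v (s + 1) * v (s + 2 + a.size)) + 2 * (v (s + 1) * v s)) ↔
        v (s + 2) + v (s + 1) = v (s + 2 + a.size) + v s) := by
      refine err_sq (e := (v (s + 2) : ℤ) + v (s + 1) - v (s + 2 + a.size) - v s) ?_ ?_
      · push_cast; ring
      · omega
    have h3 : 0 ≤ v s * v (s + 1) ∧ (v s * v (s + 1) = 0 ↔ v s * v (s + 1) = 0) :=
      ⟨Nat.zero_le _, Iff.rfl⟩
    have h4 := err_three (err_two h2 h3) (iha (s + 2)) (ihb (s + 2 + a.size))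
    rw [add_zero, and_assoc] at h4
    exact h4
  | mul a b iha ihb =>
    refine err_three (err_sq (e := (v s : ℤ) - v (s + 1) * v (s + 1 + a.size)) ?_ ?_) (iha _) (ihb _)
    · push_cast; ring
    · zify; exact sub_eq_zero
  | divS a b iha ihb =>
    have h1 : 2 * (v (s + 3 + a.size) * v s * v (s + 3)) + 2 * (v s * v (s + 3)) +
        2 * (v (s + 1) * v (s + 3)) ≤
        v (s + 3 + a.size) ^ 2 * v s ^ 2 + v s ^ 2 + v (s + 1) ^ 2 + v (s + 3) ^ 2 +
        2 * (v (s + 3 + a.size) * v s ^ 2) + 2 * (v (s + 3 + a.size) * v s * v (s + 1)) +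
        2 * (v s * v (s + 1)) ∧
        (v (s + 3 + a.size) ^ 2 * v s ^ 2 + v s ^ 2 + v (s + 1) ^ 2 + v (s + 3) ^ 2 +
        2 * (v (s + 3 + a.size) * v s ^ 2) + 2 * (v (s + 3 + a.size) * v s * v (s + 1)) +
        2 * (v s * v (s + 1)) = 2 * (v (s + 3 + a.size) * v s * v (s + 3)) +
        2 * (v s * v (s + 3)) + 2 * (v (s + 1) * v (s + 3)) ↔
        v (s + 3) = (v (s + 3 + a.size) + 1) * v s + v (s + 1)) := by
      refine err_sq (e := ((v (s + 3 + a.size) : ℤ) + 1) * v s + v (s + 1) - v (s + 3)) ?_ ?_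
      · push_cast; ring
      · zify
        constructor
        · intro h; linarith
        · intro h; linarith
    have h2 : 2 * (v (s + 1) * v (s + 3 + a.size)) + 2 * (v (s + 2) * v (s + 3 + a.size)) ≤
        v (s + 1) ^ 2 + v (s + 2) ^ 2 + v (s + 3 + a.size) ^ 2 + 2 * (v (s + 1) * v (s + 2)) ∧
        (v (s + 1) ^ 2 + v (s + 2) ^ 2 + v (s + 3 + a.size) ^ 2 + 2 * (v (s + 1) * v (s + 2)) =
        2 * (v (s + 1) * v (s + 3 + a.size)) + 2 * (v (s + 2) * v (s + 3 + a.size)) ↔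
        v (s + 1) + v (s + 2) = v (s + 3 + a.size)) := by
      refine err_sq (e := (v (s + 1) : ℤ) + v (s + 2) - v (s + 3 + a.size)) ?_ ?_
      · push_cast; ring
      · omega
    have h3 := err_three (err_two h1 h2) (iha (s + 3)) (ihb (s + 3 + a.size))
    rw [and_assoc] at h3
    simp only [Pp, Pm, Sat]
    refine ⟨by linarith [h3.1], ?_⟩
    rw [← h3.2]
    constructor
    · intro h; linarith [h]
    · intro h; linarith [h]
  | pow2 a iha =>
    refine err_two (err_sq (e := (v s : ℤ) - 2 ^ v (s + 1)) ?_ ?_) (iha _)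
    · have h4 : (4 : ℤ) ^ v (s + 1) = (2 ^ v (s + 1)) ^ 2 := by
        rw [← pow_mul, mul_comm, pow_mul]; norm_num
      push_cast
      rw [h4]
      ring
    · zify; exact sub_eq_zero

end Pool.Agent.CFK
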