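import Pool.Agent.CFK.Epp
import Pool.Agent.CFK.Err

/-! Module CPar: the whole system for `∑_{x < ρ 0} t (cons x (tl ρ))`: variables `v 0 = x`, `v 1`,
`v 2`, `v 3`, block of `t` at the offset 4, parameters `tl ρ`, `n = ρ 0`; additional equations
`v 0 + v 1 + 1 = n`, `v 2 + v 3 + 1 = v 4`. `cnt_parts`: `err_all` plus two squares (in `ℤ`, `nlinarith`
or explicit squares). `cnt_ep`: `ep_Pp`, `ep_Pm`, `ep_tl`, `ep_v0` .. `ep_v2`, `rep_var 0`. -/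

namespace Pool.Agent.CFK

open Finset

/-- positive part of the whole system -/
def PP (t : T) (ρ v : ℕ → ℕ) : ℕ :=
  Pp t 4 (tl ρ) v + (v 0 ^ 2 + v 1 ^ 2 + 1 + ρ 0 ^ 2 + 2 * (v 0 * v 1) + 2 * v 0 + 2 * v 1) +
    (v 2 ^ 2 + v 3 ^ 2 + 1 + v 4 ^ 2 + 2 * (v 2 * v 3) + 2 * v 2 + 2 * v 3)

/-- negative part of the whole system -/
def PM (t : T) (ρ v : ℕ → ℕ) : ℕ :=
  Pm t 4 (tl ρ) v + (2 * ρ 0 * v 0 + 2 * ρ 0 * v 1 + 2 * ρ 0) +
    (2 * (v 4 * v 2) + 2 * (v 4 * v 3) + 2 * v 4)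

/-- one square -/
theorem cpar_sq (a b n : ℕ) :
    2 * n * a + 2 * n * b + 2 * n ≤ a ^ 2 + b ^ 2 + 1 + n ^ 2 + 2 * (a * b) + 2 * a + 2 * b ∧
    (a ^ 2 + b ^ 2 + 1 + n ^ 2 + 2 * (a * b) + 2 * a + 2 * b = 2 * n * a + 2 * n * b + 2 * n ↔
      a + b + 1 = n) := by
  have key : ((a ^ 2 + b ^ 2 + 1 + n ^ 2 + 2 * (a * b) + 2 * a + 2 * b : ℕ) : ℤ) -
      ((2 * n * a + 2 * n * b + 2 * n : ℕ) : ℤ) = ((a : ℤ) + b + 1 - n) ^ 2 := by
    push_cast; ring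
  refine ⟨?_, ?_, ?_⟩
  · have h := sq_nonneg ((a : ℤ) + b + 1 - n)
    have : ((2 * n * a + 2 * n * b + 2 * n : ℕ) : ℤ) ≤
        ((a ^ 2 + b ^ 2 + 1 + n ^ 2 + 2 * (a * b) + 2 * a + 2 * b : ℕ) : ℤ) := by linarith
    exact_mod_cast this
  · intro h
    rw [h, sub_self] at key
    have h0 : ((a : ℤ) + b + 1 - n) = 0 := by
      have := key.symm
      exact pow_eq_zero_iff (two_ne_zero) |>.mp this
    omega
  · intro h
    subst h
    ring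

theorem cnt_parts (t : T) (ρ v : ℕ → ℕ) : PM t ρ v ≤ PP t ρ v ∧ (PP t ρ v = PM t ρ v ↔
    (v 0 + v 1 + 1 = ρ 0 ∧ v 2 + v 3 + 1 = v 4 ∧ Sat t 4 (tl ρ) v)) := by
  obtain ⟨h1, h2⟩ := err_all t 4 (tl ρ) v
  obtain ⟨a1, a2⟩ := cpar_sq (v 0) (v 1) (ρ 0)
  obtain ⟨b1, b2⟩ := cpar_sq (v 2) (v 3) (v 4)
  have e1 : 2 * v 4 * v 2 + 2 * v 4 * v 3 + 2 * v 4 =
      2 * (v 4 * v 2) + 2 * (v 4 * v 3) + 2 * v 4 := by ring
  rw [e1] at b1 b2
  unfold PP PM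
  refine ⟨by omega, ?_, ?_⟩
  · intro h
    refine ⟨a2.1 (by omega), b2.1 (by omega), h2.1 (by omega)⟩
  · rintro ⟨c1, c2, c3⟩
    have d1 := a2.2 c1
    have d2 := b2.2 c2
    have d3 := h2.2 c3
    omega

theorem cpar_size (t : T) : 1 ≤ t.size := by
  cases t <;> simp only [T.size] <;> omega

theorem cpar_sqm {m i : ℕ} (hi : i < m) : EP m (fun _ v => v i ^ 2) :=
  ep_congr (ep_v1 (rep_const 1) F1.sq hi) (fun ρ v => by simp [F1.ev])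

theorem cpar_lin {m i : ℕ} (hi : i < m) : EP m (fun _ v => 2 * v i) :=
  ep_congr (ep_v1 (rep_const 2) F1.id hi) (fun ρ v => by simp [F1.ev])

theorem cpar_mul {m i j : ℕ} (hi : i < m) (hj : j < m) (hij : i ≠ j) :
    EP m (fun _ v => 2 * (v i * v j)) :=
  ep_congr (ep_v2 (rep_const 2) F1.id F1.id hi hj hij) (fun ρ v => by simp [F1.ev])

theorem cpar_one (m : ℕ) : EP m (fun _ _ => 1) := ep_v0 m (rep_const 1)

theorem cpar_nsq (m : ℕ) : EP m (fun ρ _ => ρ 0 ^ 2) := ep_v0 m (rep_npow (rep_var 0) 2)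

theorem cpar_n (m : ℕ) : EP m (fun ρ _ => 2 * ρ 0) :=
  ep_v0 m (rep_mul (rep_const 2) (rep_var 0))

theorem cpar_nlin {m i : ℕ} (hi : i < m) : EP m (fun ρ v => 2 * ρ 0 * v i) :=
  ep_congr (ep_v1 (rep_mul (rep_const 2) (rep_var 0)) F1.id hi) (fun ρ v => by simp [F1.ev])

theorem cnt_ep (t : T) : EP (4 + t.size) (PP t) ∧ EP (4 + t.size) (PM t) := by
  have hs := cpar_size t
  have l0 : 0 < 4 + t.size := by omega
  have l1 : 1 < 4 + t.size := by omega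
  have l2 : 2 < 4 + t.size := by omega
  have l3 : 3 < 4 + t.size := by omega
  have l4 : 4 < 4 + t.size := by omega
  have hP : EP (4 + t.size) (fun ρ v => Pp t 4 (tl ρ) v) :=
    ep_tl (ep_Pp t 4 (4 + t.size) (by norm_num) le_rfl)
  have hM : EP (4 + t.size) (fun ρ v => Pm t 4 (tl ρ) v) :=
    ep_tl (ep_Pm t 4 (4 + t.size) (by norm_num) le_rfl)
  constructor
  · exact (hP.add ((((((((cpar_sqm l0).add (cpar_sqm l1)).add (cpar_one _)).add (cpar_nsq _)).add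
      (cpar_mul l0 l1 (by norm_num))).add (cpar_lin l0)).add (cpar_lin l1)))).add
      (((((((cpar_sqm l2).add (cpar_sqm l3)).add (cpar_one _)).add (cpar_sqm l4)).add
      (cpar_mul l2 l3 (by norm_num))).add (cpar_lin l2)).add (cpar_lin l3))
  · exact (hM.add (((cpar_nlin l0).add (cpar_nlin l1)).add (cpar_n _))).add
      (((cpar_mul l4 l2 (by norm_num)).add (cpar_mul l4 l3 (by norm_num))).add (cpar_lin l4))

end Pool.Agent.CFK
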