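import Pool.Agent.CFK.Uniq

/-! Module Exi: existence of the solution of the system. Induction on `t`, generalise `s` and `v`:
solve the block of `a` (starting from `v`), then the block of `b` (it does not change the block of `a`;
`sat_congr`), then set `v s` (and `v (s + 1)`, `v (s + 2)`) by `Function.update` or by an explicit
`fun k => if ..` (`sat_congr` again). The values of the block of `a` are `<= a.mj`, ... , the value
`x = v (s + 1)` etc. of `a` is `a.ev` by `sat_out`; `ev_le_mj`. -/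

namespace Pool.Agent.CFK

open Finset

/-- the statement of `sat_exists` for the term `t` -/
def ExiP (t : T) (ρ : ℕ → ℕ) : Prop :=
  ∀ s : ℕ, 1 ≤ s → ∀ v : ℕ → ℕ,
    ∃ v' : ℕ → ℕ, (∀ k, k < s ∨ s + t.size ≤ k → v' k = v k) ∧ Sat t s ρ v' ∧
      ∀ k, s ≤ k → k < s + t.size → v' k ≤ t.mj (cons (v 0) ρ)

theorem exi_val (t : T) (s : ℕ) (ρ v : ℕ → ℕ) (h : Sat t s ρ v) : v s ≤ t.mj (cons (v 0) ρ) := by
  rw [sat_out t s ρ v h]
  exact ev_le_mj _ _

theorem exi_two (a b : T) (ρ : ℕ → ℕ) (iha : ExiP a ρ) (ihb : ExiP b ρ) (s h : ℕ) (hs : 1 ≤ s)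
    (v : ℕ → ℕ) :
    ∃ w : ℕ → ℕ, (∀ k, k < s + h ∨ s + h + a.size + b.size ≤ k → w k = v k) ∧
      Sat a (s + h) ρ w ∧ Sat b (s + h + a.size) ρ w ∧
      (∀ k, s + h ≤ k → k < s + h + a.size → w k ≤ a.mj (cons (v 0) ρ)) ∧
      (∀ k, s + h + a.size ≤ k → k < s + h + a.size + b.size → w k ≤ b.mj (cons (v 0) ρ)) := by
  obtain ⟨v1, h1, h2, h3⟩ := iha (s + h) (by omega) v
  obtain ⟨v2, h4, h5, h6⟩ := ihb (s + h + a.size) (by omega) v1
  have h10 : v1 0 = v 0 := h1 0 (by omega)
  have h20 : v2 0 = v1 0 := h4 0 (by omega)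
  refine ⟨v2, ?_, ?_, h5, ?_, ?_⟩
  · intro k hk
    rw [h4 k (by omega), h1 k (by omega)]
  · refine (sat_congr a (s + h) ρ v2 v1 h20 ?_).2 h2
    intro k hk1 hk2
    exact h4 k (by omega)
  · intro k hk1 hk2
    rw [h4 k (by omega)]
    exact h3 k hk1 hk2
  · intro k hk1 hk2
    have := h6 k hk1 hk2
    rwa [h10] at this

/-- change the values in the head of the block -/
def exiUpd (w : ℕ → ℕ) (s h : ℕ) (u : ℕ → ℕ) : ℕ → ℕ :=
  fun k => if s ≤ k ∧ k < s + h then u (k - s) else w k

theorem exiUpd_in (w : ℕ → ℕ) (s h : ℕ) (u : ℕ → ℕ) (i : ℕ) (hi : i < h) :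
    exiUpd w s h u (s + i) = u i := by
  unfold exiUpd
  rw [if_pos (by omega)]
  congr 1
  omega

theorem exiUpd_zero (w : ℕ → ℕ) (s h : ℕ) (u : ℕ → ℕ) (hh : 0 < h) : exiUpd w s h u s = u 0 :=
  exiUpd_in w s h u 0 hh

theorem exiUpd_out (w : ℕ → ℕ) (s h : ℕ) (u : ℕ → ℕ) (k : ℕ) (hk : k < s ∨ s + h ≤ k) :
    exiUpd w s h u k = w k := by
  unfold exiUpd
  rw [if_neg (by omega)]

theorem exiUpd_sat (t : T) (ρ w : ℕ → ℕ) (s h s' : ℕ) (hs : 1 ≤ s) (u : ℕ → ℕ) (hs' : s + h ≤ s')
    (H : Sat t s' ρ w) : Sat t s' ρ (exiUpd w s h u) := by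
  refine (sat_congr t s' ρ _ w (exiUpd_out _ _ _ _ _ (by omega)) ?_).2 H
  intro k hk1 hk2
  exact exiUpd_out _ _ _ _ _ (by omega)

theorem exi_all (t : T) (ρ : ℕ → ℕ) : ExiP t ρ := by
  induction t with
  | var i =>
    intro s hs v
    cases i with
    | zero =>
      refine ⟨exiUpd v s 1 (fun _ => v 0), ?_, ?_, ?_⟩
      · intro k hk
        exact exiUpd_out _ _ _ _ _ hk
      · show exiUpd v s 1 (fun _ => v 0) s = exiUpd v s 1 (fun _ => v 0) 0
        rw [exiUpd_out _ _ _ _ 0 (by omega)]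
        exact exiUpd_in v s 1 (fun _ => v 0) 0 (by omega)
      · intro k hk1 hk2
        have hk : k = s := by simp only [T.size] at hk2; omega
        subst hk
        rw [exiUpd_zero _ _ _ _ (by omega)]
        exact le_refl _
    | succ i =>
      refine ⟨exiUpd v s 1 (fun _ => ρ i), ?_, ?_, ?_⟩
      · intro k hk
        exact exiUpd_out _ _ _ _ _ hk
      · show exiUpd v s 1 (fun _ => ρ i) s = ρ i
        exact exiUpd_in v s 1 (fun _ => ρ i) 0 (by omega)
      · intro k hk1 hk2
        have hk : k = s := by simp only [T.size] at hk2; omega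
        subst hk
        rw [exiUpd_zero _ _ _ _ (by omega)]
        exact le_refl _
  | const c =>
    intro s hs v
    refine ⟨exiUpd v s 1 (fun _ => c), ?_, ?_, ?_⟩
    · intro k hk
      exact exiUpd_out _ _ _ _ _ hk
    · show exiUpd v s 1 (fun _ => c) s = c
      exact exiUpd_in v s 1 (fun _ => c) 0 (by omega)
    · intro k hk1 hk2
      have hk : k = s := by simp only [T.size] at hk2; omega
      subst hk
      rw [exiUpd_zero _ _ _ _ (by omega)]
      exact le_refl _
  | add a b iha ihb =>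
    intro s hs v
    obtain ⟨w, h1, h2, h3, h4, h5⟩ := exi_two a b ρ iha ihb s 1 hs v
    have w0 : w 0 = v 0 := h1 0 (by omega)
    have ha := exi_val _ _ _ _ h2
    have hb := exi_val _ _ _ _ h3
    rw [w0] at ha hb
    refine ⟨exiUpd w s 1 (fun _ => w (s + 1) + w (s + 1 + a.size)), ?_, ⟨?_, ?_, ?_⟩, ?_⟩
    · intro k hk
      simp only [T.size] at hk
      rw [exiUpd_out _ _ _ _ _ (by omega)]
      exact h1 k (by omega)
    · rw [exiUpd_out _ _ _ _ (s + 1) (by omega), exiUpd_out _ _ _ _ (s + 1 + a.size) (by omega)]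
      exact exiUpd_in w s 1 _ 0 (by omega)
    · exact exiUpd_sat _ _ _ _ _ _ hs _ (by omega) h2
    · exact exiUpd_sat _ _ _ _ _ _ hs _ (by omega) h3
    · intro k hk1 hk2
      simp only [T.size] at hk2
      simp only [T.mj]
      rcases Nat.lt_or_ge k (s + 1) with hk | hk
      · obtain rfl : k = s := by omega
        rw [exiUpd_zero _ _ _ _ (by omega)]
        omega
      · rw [exiUpd_out _ _ _ _ _ (by omega)]
        rcases Nat.lt_or_ge k (s + 1 + a.size) with hk' | hk'
        · have := h4 k hk hk'; omega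
        · have := h5 k hk' (by omega); omega
  | sub a b iha ihb =>
    intro s hs v
    obtain ⟨w, h1, h2, h3, h4, h5⟩ := exi_two a b ρ iha ihb s 2 hs v
    have w0 : w 0 = v 0 := h1 0 (by omega)
    have ha := exi_val _ _ _ _ h2
    have hb := exi_val _ _ _ _ h3
    rw [w0] at ha hb
    set x := w (s + 2) with hx
    set y := w (s + 2 + a.size) with hy
    refine ⟨exiUpd w s 2 (fun i => if i = 0 then x - y else y - x), ?_, ⟨?_, ?_, ?_, ?_⟩, ?_⟩
    · intro k hk
      simp only [T.size] at hk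
      rw [exiUpd_out _ _ _ _ _ (by omega)]
      exact h1 k (by omega)
    · rw [exiUpd_out _ _ _ _ (s + 2) (by omega), exiUpd_out _ _ _ _ (s + 2 + a.size) (by omega),
        exiUpd_in w s 2 _ 1 (by omega)]
      have := exiUpd_in w s 2 (fun i => if i = 0 then x - y else y - x) 0 (by omega)
      rw [add_zero] at this
      rw [this, ← hx, ← hy]
      simp only [if_true, one_ne_zero, if_false]
      omega
    · rw [exiUpd_in w s 2 _ 1 (by omega)]
      have := exiUpd_in w s 2 (fun i => if i = 0 then x - y else y - x) 0 (by omega)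
      rw [add_zero] at this
      rw [this]
      simp only [if_true, one_ne_zero, if_false]
      rcases le_total x y with h | h
      · rw [Nat.sub_eq_zero_of_le h, zero_mul]
      · rw [Nat.sub_eq_zero_of_le h, mul_zero]
    · exact exiUpd_sat _ _ _ _ _ _ hs _ (by omega) h2
    · exact exiUpd_sat _ _ _ _ _ _ hs _ (by omega) h3
    · intro k hk1 hk2
      simp only [T.size] at hk2
      simp only [T.mj]
      rcases Nat.lt_or_ge k (s + 2) with hk | hk
      · obtain ⟨i, rfl⟩ : ∃ i, k = s + i := ⟨k - s, by omega⟩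
        rw [exiUpd_in _ _ _ _ i (by omega)]
        split_ifs <;> omega
      · rw [exiUpd_out _ _ _ _ _ (by omega)]
        rcases Nat.lt_or_ge k (s + 2 + a.size) with hk' | hk'
        · have := h4 k hk hk'; omega
        · have := h5 k hk' (by omega); omega
  | mul a b iha ihb =>
    intro s hs v
    obtain ⟨w, h1, h2, h3, h4, h5⟩ := exi_two a b ρ iha ihb s 1 hs v
    have w0 : w 0 = v 0 := h1 0 (by omega)
    have ha := exi_val _ _ _ _ h2
    have hb := exi_val _ _ _ _ h3
    rw [w0] at ha hb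
    refine ⟨exiUpd w s 1 (fun _ => w (s + 1) * w (s + 1 + a.size)), ?_, ⟨?_, ?_, ?_⟩, ?_⟩
    · intro k hk
      simp only [T.size] at hk
      rw [exiUpd_out _ _ _ _ _ (by omega)]
      exact h1 k (by omega)
    · rw [exiUpd_out _ _ _ _ (s + 1) (by omega), exiUpd_out _ _ _ _ (s + 1 + a.size) (by omega)]
      exact exiUpd_in w s 1 _ 0 (by omega)
    · exact exiUpd_sat _ _ _ _ _ _ hs _ (by omega) h2
    · exact exiUpd_sat _ _ _ _ _ _ hs _ (by omega) h3
    · intro k hk1 hk2
      simp only [T.size] at hk2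
      simp only [T.mj]
      rcases Nat.lt_or_ge k (s + 1) with hk | hk
      · obtain rfl : k = s := by omega
        rw [exiUpd_zero _ _ _ _ (by omega)]
        have := Nat.mul_le_mul ha hb
        omega
      · rw [exiUpd_out _ _ _ _ _ (by omega)]
        rcases Nat.lt_or_ge k (s + 1 + a.size) with hk' | hk'
        · have := h4 k hk hk'; omega
        · have := h5 k hk' (by omega); omega
  | divS a b iha ihb =>
    intro s hs v
    obtain ⟨w, h1, h2, h3, h4, h5⟩ := exi_two a b ρ iha ihb s 3 hs v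
    have w0 : w 0 = v 0 := h1 0 (by omega)
    have ha := exi_val _ _ _ _ h2
    have hb := exi_val _ _ _ _ h3
    rw [w0] at ha hb
    set x := w (s + 3) with hx
    set y := w (s + 3 + a.size) with hy
    have hr : x % (y + 1) ≤ y := Nat.lt_succ_iff.1 (Nat.mod_lt _ (Nat.succ_pos y))
    have hq : x / (y + 1) ≤ x := Nat.div_le_self _ _
    have hdm : (y + 1) * (x / (y + 1)) + x % (y + 1) = x := Nat.div_add_mod x (y + 1)
    set g : ℕ → ℕ := fun i => if i = 0 then x / (y + 1) else if i = 1 then x % (y + 1)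
      else y - x % (y + 1) with hg
    have g0 : exiUpd w s 3 g s = x / (y + 1) := exiUpd_in w s 3 g 0 (by omega)
    have g1 : exiUpd w s 3 g (s + 1) = x % (y + 1) := exiUpd_in w s 3 g 1 (by omega)
    have g2 : exiUpd w s 3 g (s + 2) = y - x % (y + 1) := exiUpd_in w s 3 g 2 (by omega)
    refine ⟨exiUpd w s 3 g, ?_, ⟨?_, ?_, ?_, ?_⟩, ?_⟩
    · intro k hk
      simp only [T.size] at hk
      rw [exiUpd_out _ _ _ _ _ (by omega)]
      exact h1 k (by omega)
    · rw [exiUpd_out _ _ _ _ (s + 3) (by omega), exiUpd_out _ _ _ _ (s + 3 + a.size) (by omega),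
        g0, g1, ← hx, ← hy]
      exact hdm.symm
    · rw [exiUpd_out _ _ _ _ (s + 3 + a.size) (by omega), g1, g2, ← hy]
      omega
    · exact exiUpd_sat _ _ _ _ _ _ hs _ (by omega) h2
    · exact exiUpd_sat _ _ _ _ _ _ hs _ (by omega) h3
    · intro k hk1 hk2
      simp only [T.size] at hk2
      simp only [T.mj]
      rcases Nat.lt_or_ge k (s + 3) with hk | hk
      · obtain ⟨i, rfl⟩ : ∃ i, k = s + i := ⟨k - s, by omega⟩
        rw [exiUpd_in _ _ _ _ i (by omega)]
        simp only [hg]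
        split_ifs
        · omega
        · omega
        · omega
      · rw [exiUpd_out _ _ _ _ _ (by omega)]
        rcases Nat.lt_or_ge k (s + 3 + a.size) with hk' | hk'
        · have := h4 k hk hk'; omega
        · have := h5 k hk' (by omega); omega
  | pow2 a iha =>
    intro s hs v
    obtain ⟨w, h1, h2, h3⟩ := iha (s + 1) (by omega) v
    have w0 : w 0 = v 0 := h1 0 (by omega)
    have ha := exi_val _ _ _ _ h2
    rw [w0] at ha
    refine ⟨exiUpd w s 1 (fun _ => 2 ^ w (s + 1)), ?_, ⟨?_, ?_⟩, ?_⟩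
    · intro k hk
      simp only [T.size] at hk
      rw [exiUpd_out _ _ _ _ _ (by omega)]
      exact h1 k (by omega)
    · rw [exiUpd_out _ _ _ _ (s + 1) (by omega)]
      exact exiUpd_in w s 1 _ 0 (by omega)
    · exact exiUpd_sat _ _ _ _ _ _ hs _ (by omega) h2
    · intro k hk1 hk2
      simp only [T.size] at hk2
      simp only [T.mj]
      rcases Nat.lt_or_ge k (s + 1) with hk | hk
      · obtain rfl : k = s := by omega
        rw [exiUpd_zero _ _ _ _ (by omega)]
        exact Nat.pow_le_pow_right (by norm_num) ha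
      · rw [exiUpd_out _ _ _ _ _ (by omega)]
        have h6 := h3 k hk (by omega)
        have h7 : a.mj (cons (v 0) ρ) < 2 ^ a.mj (cons (v 0) ρ) := Nat.lt_two_pow_self
        omega

theorem sat_exists (t : T) (s : ℕ) (hs : 1 ≤ s) (ρ v : ℕ → ℕ) :
    ∃ v' : ℕ → ℕ, (∀ k, k < s ∨ s + t.size ≤ k → v' k = v k) ∧ Sat t s ρ v' ∧
      ∀ k, s ≤ k → k < s + t.size → v' k ≤ t.mj (cons (v 0) ρ) :=
  exi_all t ρ s hs v

end Pool.Agent.CFK
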