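import Pool.Agent.CFK.CPar
import Pool.Agent.CFK.Exi

/-! Module CSol: the number of the solutions of the system in the box `v k < B`, `k < 4 + t.size`
(`v = vec B j`, `j < B ^ (4 + t.size)`) is the number of pairs `x < n`, `y < t (cons x (tl ρ))`,
`n = ρ 0`: `Finset.card_bij` (or `card_nbij`) from the filter to
`(range n).sigma fun x => range (t.ev (cons x (tl ρ)))`, `j ↦ ⟨vec B j 0, vec B j 2⟩`
(`Finset.card_sigma`). Injective: `cnt_parts`, `sat_unique`, `v 1 = n - 1 - v 0`, `v 3 = v 4 - 1 - v 2`,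
`vec_inj`. Surjective: `sat_exists` with the vector `x, n - 1 - x, y, t - 1 - y` in the places 0..3
(`sat_out`: `v 4 = t.ev (cons (v 0) (tl ρ))`), all values `< B` by `mj_mono`, `ev_le_mj`; `vec_surj`,
`sat_congr`. -/

namespace Pool.Agent.CFK

open Finset

/-- every block has a positive size -/
theorem csol_size (t : T) : 1 ≤ t.size := by
  cases t <;> simp [T.size] <;> omega

/-- the number of the solutions in a large box -/
theorem cnt_sol (t : T) (ρ : ℕ → ℕ) (B : ℕ) (hB : t.mj (cons (ρ 0) (tl ρ)) + ρ 0 < B) :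
    ((range (B ^ (4 + t.size))).filter fun j => PP t ρ (vec B j) = PM t ρ (vec B j)).card
      = ∑ x ∈ range (ρ 0), t.ev (cons x (tl ρ)) := by
  classical
  have hts := csol_size t
  have hsig : ((range (ρ 0)).sigma fun x => range (t.ev (cons x (tl ρ)))).card
      = ∑ x ∈ range (ρ 0), t.ev (cons x (tl ρ)) := by
    rw [card_sigma]
    exact sum_congr rfl fun x _ => card_range _
  rw [← hsig]
  refine Finset.card_bij (fun j _ => (⟨vec B j 0, vec B j 2⟩ : Σ _ : ℕ, ℕ)) ?_ ?_ ?_
  · intro j hj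
    rw [mem_filter, mem_range] at hj
    obtain ⟨h1, h2, h3⟩ := (cnt_parts t ρ (vec B j)).2.1 hj.2
    have h4 := sat_out t 4 (tl ρ) (vec B j) h3
    rw [mem_sigma, mem_range, mem_range]
    constructor
    · show vec B j 0 < ρ 0
      omega
    · show vec B j 2 < t.ev (cons (vec B j 0) (tl ρ))
      omega
  · intro j hj j' hj' h
    rw [mem_filter, mem_range] at hj hj'
    obtain ⟨h1, h2, h3⟩ := (cnt_parts t ρ (vec B j)).2.1 hj.2
    obtain ⟨h1', h2', h3'⟩ := (cnt_parts t ρ (vec B j')).2.1 hj'.2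
    have e : vec B j 0 = vec B j' 0 ∧ vec B j 2 = vec B j' 2 := by
      simpa using h
    obtain ⟨e0, e2⟩ := e
    have hu := sat_unique t 4 (tl ρ) (vec B j) (vec B j') e0 h3 h3'
    have e4 := hu 4 le_rfl (by omega)
    apply vec_inj B (4 + t.size) j j' hj.1 hj'.1
    intro k hk
    have hk5 : k = 0 ∨ k = 1 ∨ k = 2 ∨ k = 3 ∨ 4 ≤ k := by omega
    rcases hk5 with rfl | rfl | rfl | rfl | hk4
    · exact e0
    · omega
    · exact e2
    · omega
    · exact hu k hk4 hk
  · rintro ⟨x, y⟩ h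
    rw [mem_sigma, mem_range, mem_range] at h
    obtain ⟨hx, hy⟩ := h
    change x < ρ 0 at hx
    change y < t.ev (cons x (tl ρ)) at hy
    obtain ⟨v0, hv0, hv1, hv2, hv3⟩ : ∃ v0 : ℕ → ℕ, v0 0 = x ∧ v0 1 = ρ 0 - 1 - x ∧ v0 2 = y ∧
        v0 3 = t.ev (cons x (tl ρ)) - 1 - y :=
      ⟨fun k => if k = 0 then x else if k = 1 then ρ 0 - 1 - x else if k = 2 then y else
        t.ev (cons x (tl ρ)) - 1 - y, by simp, by simp, by simp, by simp⟩
    obtain ⟨v', w1, w2, w3⟩ := sat_exists t 4 (by norm_num) (tl ρ) v0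
    have g0 : v' 0 = x := (w1 0 (Or.inl (by norm_num))).trans hv0
    have g1 : v' 1 = ρ 0 - 1 - x := (w1 1 (Or.inl (by norm_num))).trans hv1
    have g2 : v' 2 = y := (w1 2 (Or.inl (by norm_num))).trans hv2
    have g3 : v' 3 = t.ev (cons x (tl ρ)) - 1 - y := (w1 3 (Or.inl (by norm_num))).trans hv3
    have g4 : v' 4 = t.ev (cons x (tl ρ)) := by
      rw [sat_out t 4 (tl ρ) v' w2, g0]
    have hmono : t.mj (cons x (tl ρ)) ≤ t.mj (cons (ρ 0) (tl ρ)) := by
      apply mj_mono
      intro i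
      cases i with
      | zero => exact hx.le
      | succ i => exact le_rfl
    have hev := ev_le_mj t (cons x (tl ρ))
    have hlt : ∀ k < 4 + t.size, v' k < B := by
      intro k hk
      have hk5 : k = 0 ∨ k = 1 ∨ k = 2 ∨ k = 3 ∨ 4 ≤ k := by omega
      rcases hk5 with rfl | rfl | rfl | rfl | hk4
      · omega
      · omega
      · omega
      · omega
      · have := w3 k hk4 hk
        rw [hv0] at this
        omega
    obtain ⟨j, hj, hjv⟩ := vec_surj B (4 + t.size) v' hlt
    have j0 := hjv 0 (by omega)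
    have j1 := hjv 1 (by omega)
    have j2 := hjv 2 (by omega)
    have j3 := hjv 3 (by omega)
    have j4 := hjv 4 (by omega)
    refine ⟨j, ?_, ?_⟩
    · rw [mem_filter, mem_range]
      refine ⟨hj, (cnt_parts t ρ (vec B j)).2.2 ⟨?_, ?_, ?_⟩⟩
      · omega
      · omega
      · refine (sat_congr t 4 (tl ρ) (vec B j) v' j0 ?_).2 w2
        intro k hk1 hk2
        exact hjv k hk2
    · simp [j0, j2, g0, g2]

end Pool.Agent.CFK
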