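import Pool.Agent.CFK.Defs

/-! Module Ham: the Hamming weight. `hw (2 n) = hw n`, `hw (2 n + 1) = hw n + 1` (`Nat.digits_def'`,
`Nat.digits_add_two_add_one`); `hw_block`: induction on `k` (parity of `a`); `hw_compl`:
`hw a + hw (2^u - 1 - a) = u` for `a < 2^u`, induction on `u`; `hw_mul`:
`(2^u - 1) z = (2^u - z) + 2^u (z - 1)`, `2^u - z = 2^u - 1 - (z - 1)`; `hw_sum`: induction on `n`
with `hw_block` (the sum of the first `n` terms is `< 2 ^ (w n)`). -/

namespace Pool.Agent.CFK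

open Finset

theorem hw_zero : hw 0 = 0 := by
  simp [hw]

theorem ham_rec (n : ℕ) : hw n = n % 2 + hw (n / 2) := by
  rcases Nat.eq_zero_or_pos n with h | h
  · subst h
    simp [hw]
  · unfold hw
    rw [Nat.digits_def' (by norm_num) h, List.sum_cons]

theorem hw_block (a b k : ℕ) (h : a < 2 ^ k) : hw (a + 2 ^ k * b) = hw a + hw b := by
  induction k generalizing a with
  | zero =>
    have : a = 0 := by simpa using h
    subst this
    rw [hw_zero, pow_zero, one_mul, zero_add, zero_add]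
  | succ k ih =>
    have h1 : (a + 2 ^ (k + 1) * b) % 2 = a % 2 := by
      rw [pow_succ]
      have : a + 2 ^ k * 2 * b = a + 2 * (2 ^ k * b) := by ring
      rw [this]
      omega
    have h2 : (a + 2 ^ (k + 1) * b) / 2 = a / 2 + 2 ^ k * b := by
      rw [pow_succ]
      have : a + 2 ^ k * 2 * b = a + 2 * (2 ^ k * b) := by ring
      rw [this]
      omega
    have h3 : a / 2 < 2 ^ k := by
      rw [pow_succ] at h
      omega
    rw [ham_rec (a + 2 ^ (k + 1) * b), h1, h2, ih _ h3, ham_rec a]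
    ring

theorem hw_compl (u a : ℕ) (h : a < 2 ^ u) : hw a + hw (2 ^ u - 1 - a) = u := by
  induction u generalizing a with
  | zero =>
    have : a = 0 := by simpa using h
    subst this
    simp [hw_zero]
  | succ u ih =>
    have hp : 2 ^ (u + 1) = 2 * 2 ^ u := by rw [pow_succ]; ring
    have h3 : a / 2 < 2 ^ u := by omega
    have h1 : (2 ^ (u + 1) - 1 - a) % 2 = 1 - a % 2 := by omega
    have h2 : (2 ^ (u + 1) - 1 - a) / 2 = 2 ^ u - 1 - a / 2 := by omega
    have h4 := ih _ h3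
    rw [ham_rec a, ham_rec (2 ^ (u + 1) - 1 - a), h1, h2]
    omega

theorem hw_mul (u z : ℕ) (h1 : 1 ≤ z) (h2 : z ≤ 2 ^ u) : hw ((2 ^ u - 1) * z) = u := by
  obtain ⟨a, rfl⟩ : ∃ a, z = a + 1 := ⟨z - 1, by omega⟩
  have h3 : (2 ^ u - 1) * (a + 1) = (2 ^ u - 1 - a) + 2 ^ u * a := by
    have h4 : 2 ^ u - 1 = (2 ^ u - 1 - a) + a := by omega
    have h5 : 2 ^ u = (2 ^ u - 1) + 1 := by omega
    calc (2 ^ u - 1) * (a + 1) = (2 ^ u - 1) * a + (2 ^ u - 1) := by ring
      _ = (2 ^ u - 1) * a + ((2 ^ u - 1 - a) + a) := by rw [← h4]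
      _ = (2 ^ u - 1 - a) + ((2 ^ u - 1) + 1) * a := by ring
      _ = (2 ^ u - 1 - a) + 2 ^ u * a := by rw [← h5]
  rw [h3, hw_block _ _ _ (by omega)]
  have := hw_compl u a (by omega)
  omega

theorem hw_sum (w n : ℕ) (D : ℕ → ℕ) (hD : ∀ j < n, D j < 2 ^ w) :
    hw (∑ j ∈ range n, D j * 2 ^ (w * j)) = ∑ j ∈ range n, hw (D j) := by
  have hlt : ∀ m ≤ n, ∑ j ∈ range m, D j * 2 ^ (w * j) < 2 ^ (w * m) := by
    intro m
    induction m with
    | zero => intro _; simp
    | succ m ih =>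
      intro hm
      rw [sum_range_succ]
      have h1 := ih (by omega)
      have h2 := hD m (by omega)
      have h3 : 2 ^ (w * (m + 1)) = 2 ^ w * 2 ^ (w * m) := by
        rw [← pow_add]
        congr 1
        ring
      rw [h3]
      have h4 : (D m + 1) * 2 ^ (w * m) ≤ 2 ^ w * 2 ^ (w * m) :=
        Nat.mul_le_mul_right _ h2
      have h5 : (D m + 1) * 2 ^ (w * m) = D m * 2 ^ (w * m) + 2 ^ (w * m) := by ring
      omega
  have key : ∀ m ≤ n, hw (∑ j ∈ range m, D j * 2 ^ (w * j)) = ∑ j ∈ range m, hw (D j) := by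
    intro m
    induction m with
    | zero => intro _; simp [hw_zero]
    | succ m ih =>
      intro hm
      rw [sum_range_succ, sum_range_succ, mul_comm (D m), hw_block _ _ _ (hlt m (by omega)),
        ih (by omega)]
  exact key n le_rfl

end Pool.Agent.CFK
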