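import Pool.Agent.CFK.Gcd
import Pool.Agent.CFK.Ham

/-! Module RHam: the Hamming weight is representable. `hw n` is the 2-adic valuation of
`C(2n, n)` (`sub_one_mul_padicValNat_choose_eq_sub_sum_digits'` or `..._choose_...`, with
`Nat.digits 2 (2 n)`), so `G := gcd (C(2n,n)) (2 ^ C(2n,n)) = 2 ^ hw n` (`Nat.gcd` of `2^s * odd` with
a power of two `2^A`, `s ≤ A`), and for `G = 2 ^ s`, `K = G + 2`:
`G ^ K = (2 ^ K) ^ s ≡ 1 + s (2^K - 1) mod (2^K - 1)^2`, hence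
`G ^ K % (2^K - 1)^2 / (2^K - 1) = s`, because `s ≤ 2^K - 3`. -/

namespace Pool.Agent.CFK

open Finset

theorem rham_modEq (M s : ℕ) : (M + 1) ^ s ≡ 1 + s * M [MOD M ^ 2] := by
  induction s with
  | zero => simp [Nat.ModEq]
  | succ s ih =>
    have h1 : (M + 1) ^ (s + 1) ≡ (1 + s * M) * (M + 1) [MOD M ^ 2] := by
      rw [pow_succ]
      exact Nat.ModEq.mul_right _ ih
    refine h1.trans ?_
    have h2 : (1 + s * M) * (M + 1) = (1 + (s + 1) * M) + M ^ 2 * s := by ring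
    rw [h2, Nat.ModEq, Nat.add_mul_mod_self_left]

theorem log_formula (s : ℕ) :
    (2 ^ s) ^ (2 ^ s + 2) % (2 ^ (2 ^ s + 2) - 1) ^ 2 / (2 ^ (2 ^ s + 2) - 1) = s := by
  set K := 2 ^ s + 2 with hK
  have hs : s < 2 ^ s := Nat.lt_two_pow_self
  have hKlt : K < 2 ^ K := Nat.lt_two_pow_self
  obtain ⟨M, hM⟩ : ∃ M, 2 ^ K = M + 1 := ⟨2 ^ K - 1, by omega⟩
  have hM1 : 2 ^ K - 1 = M := by omega
  have hsM : s + 2 ≤ M := by omega
  have h1 : (2 ^ s) ^ K = (M + 1) ^ s := by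
    rw [← pow_mul, mul_comm, pow_mul, hM]
  rw [hM1, h1, rham_modEq M s]
  have h2 : 1 + s * M < M ^ 2 := by nlinarith
  rw [Nat.mod_eq_of_lt h2, Nat.add_mul_div_right _ _ (by omega), Nat.div_eq_of_lt (by omega),
    zero_add]

theorem gcd_central (n : ℕ) :
    Nat.gcd ((2 * n).choose n) (2 ^ (2 * n).choose n) = 2 ^ hw n := by
  have hp : Fact (Nat.Prime 2) := ⟨Nat.prime_two⟩
  have hCpos : 0 < (2 * n).choose n := Nat.choose_pos (by omega)
  have hval : padicValNat 2 ((2 * n).choose n) = hw n := by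
    have h1 := sub_one_mul_padicValNat_choose_eq_sub_sum_digits' (p := 2) (k := n) (n := n)
    have h2 : (Nat.digits 2 (n + n)).sum = hw n := by
      rcases Nat.eq_zero_or_pos n with h0 | h0
      · subst h0
        simp [hw]
      · rw [← two_mul, Nat.digits_base_mul (by norm_num) h0]
        simp [hw]
    rw [h2, ← two_mul] at h1
    unfold hw at h1 ⊢
    omega
  obtain ⟨m, hm⟩ : 2 ^ hw n ∣ (2 * n).choose n := by
    rw [← hval]
    exact pow_padicValNat_dvd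
  have hodd : ¬ 2 ∣ m := by
    intro hdiv
    obtain ⟨c, hc⟩ := hdiv
    have h3 : 2 ^ (hw n + 1) ∣ (2 * n).choose n := by
      rw [hm, hc]
      exact ⟨c, by ring⟩
    have h4 := (padicValNat_dvd_iff_le (p := 2) hCpos.ne').1 h3
    omega
  have hle : hw n ≤ (2 * n).choose n := by
    have h5 : 2 ^ hw n ≤ (2 * n).choose n := Nat.le_of_dvd hCpos ⟨m, hm⟩
    exact le_trans Nat.lt_two_pow_self.le h5
  set A := (2 * n).choose n with hA
  have hcop : Nat.Coprime m (2 ^ A) := by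
    refine Nat.Coprime.pow_right _ ?_
    exact ((Nat.Prime.coprime_iff_not_dvd Nat.prime_two).2 hodd).symm
  have h6 : Nat.gcd A (2 ^ A) = Nat.gcd (2 ^ hw n * m) (2 ^ A) := by
    rw [← hm]
  rw [h6, Nat.Coprime.gcd_mul_right_cancel _ hcop]
  exact Nat.gcd_eq_left (pow_dvd_pow 2 hle)

theorem rep_hw {f : (ℕ → ℕ) → ℕ} (hf : Rep f) : Rep (fun ρ => hw (f ρ)) := by
  have hC : Rep (fun ρ => (2 * f ρ).choose (f ρ)) := rep_choose (rep_mul (rep_const 2) hf) hf
  have hG : Rep (fun ρ => Nat.gcd ((2 * f ρ).choose (f ρ)) (2 ^ (2 * f ρ).choose (f ρ))) :=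
    rep_gcd hC (rep_two_pow hC)
  have hG2 : Rep (fun ρ => 2 ^ hw (f ρ)) := rep_congr hG fun ρ => gcd_central (f ρ)
  have hK : Rep (fun ρ => 2 ^ hw (f ρ) + 2) := rep_add hG2 (rep_const 2)
  have hM : Rep (fun ρ => 2 ^ (2 ^ hw (f ρ) + 2) - 1) := rep_sub (rep_two_pow hK) (rep_const 1)
  exact rep_congr (rep_div (rep_mod (rep_pow hG2 hK) (rep_npow hM 2)) hM)
    fun ρ => log_formula (hw (f ρ))

end Pool.Agent.CFK
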