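import Pool.Agent.CFK.CSol
import Pool.Agent.CFK.CHw
import Pool.Agent.CFK.RHam

/-! Module Cnt: THE MAIN POINT, bounded sums of representable functions are representable.
`rep_mj` by induction on the term. `rep_bsum`: `t` a term of `f`, `B = t.mj ρ + ρ 0 + 1` (note
`cons (ρ 0) (tl ρ) = ρ`), `u = PP t ρ (const B) + 1` (`ep_const`), `W = 2^(2u)`, `N = B^(4 + t.size)`.
`PP t ρ (vec B j) <= PP t ρ (const B) < 2^u` by `ep_mono_le`, `vec_lt`. By `cnt_hw` (with
`P j = PP - PM`) and `cnt_sol` the sum is `N - hw ((2^u - 1) * (∑ PP W^j - ∑ PM W^j)) / u`;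
`box_sum`, `rep_hw`. -/

namespace Pool.Agent.CFK

open Finset

theorem rep_mj (t : T) : Rep t.mj := by
  induction t with
  | var i => exact rep_congr (rep_var i) fun _ => rfl
  | const c => exact rep_congr (rep_const c) fun _ => rfl
  | add a b ha hb => exact rep_congr (rep_add ha hb) fun _ => rfl
  | sub a b ha hb => exact rep_congr (rep_add ha hb) fun _ => rfl
  | mul a b ha hb => exact rep_congr (rep_add (rep_add (rep_mul ha hb) ha) hb) fun _ => rfl
  | divS a b ha hb => exact rep_congr (rep_add ha hb) fun _ => rfl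
  | pow2 a ha => exact rep_congr (rep_two_pow ha) fun _ => rfl

theorem cnt_sub_sum (N : ℕ) (P Q W : ℕ → ℕ) (c : ℕ) (h : ∀ j, Q j ≤ P j) :
    ∑ j ∈ range N, c * (P j - Q j) * W j =
      c * (∑ j ∈ range N, P j * W j - ∑ j ∈ range N, Q j * W j) := by
  have h1 : ∑ j ∈ range N, P j * W j =
      ∑ j ∈ range N, Q j * W j + ∑ j ∈ range N, (P j - Q j) * W j := by
    rw [← Finset.sum_add_distrib]
    refine Finset.sum_congr rfl fun j _ => ?_
    rw [← Nat.add_mul, Nat.add_sub_cancel' (h j)]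
  rw [h1, Nat.add_sub_cancel_left, Finset.mul_sum]
  exact Finset.sum_congr rfl fun j _ => by rw [Nat.mul_assoc]

theorem rep_bsum {f : (ℕ → ℕ) → ℕ} (hf : Rep f) :
    Rep (fun ρ => ∑ x ∈ range (ρ 0), f (cons x (tl ρ))) := by
  obtain ⟨t, ht⟩ := hf
  obtain ⟨eP, eM⟩ := cnt_ep t
  have hB : Rep (fun ρ => t.mj ρ + ρ 0 + 1) :=
    rep_add (rep_add (rep_mj t) (rep_var 0)) (rep_const 1)
  have hu : Rep (fun ρ => PP t ρ (fun _ => t.mj ρ + ρ 0 + 1) + 1) :=
    rep_add (ep_const eP hB) (rep_const 1)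
  have hW : Rep (fun ρ => 2 ^ (2 * (PP t ρ (fun _ => t.mj ρ + ρ 0 + 1) + 1))) :=
    rep_two_pow (rep_mul (rep_const 2) hu)
  have hW2 : ∀ ρ : ℕ → ℕ, 2 ≤ 2 ^ (2 * (PP t ρ (fun _ => t.mj ρ + ρ 0 + 1) + 1)) := by
    intro ρ
    calc 2 = 2 ^ 1 := by norm_num
      _ ≤ _ := Nat.pow_le_pow_right (by norm_num) (by omega)
  have hSP := box_sum eP hB hW (fun ρ => by omega) hW2
  have hSM := box_sum eM hB hW (fun ρ => by omega) hW2
  have hX := rep_mul (rep_sub (rep_two_pow hu) (rep_const 1)) (rep_sub hSP hSM)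
  have hfin := rep_sub (rep_npow hB (4 + t.size)) (rep_div (rep_hw hX) hu)
  refine rep_congr hfin fun ρ => ?_
  obtain ⟨B, hBe⟩ : ∃ B, B = t.mj ρ + ρ 0 + 1 := ⟨_, rfl⟩
  obtain ⟨u, hue⟩ : ∃ u, u = PP t ρ (fun _ => B) + 1 := ⟨_, rfl⟩
  simp only [← hBe, ← hue]
  have hcons : cons (ρ 0) (tl ρ) = ρ := by
    funext k
    cases k with
    | zero => rfl
    | succ k => rfl
  have h1 := cnt_sol t ρ B (by rw [hcons]; omega)
  have hle : ∀ j, PM t ρ (vec B j) ≤ PP t ρ (vec B j) := fun j => (cnt_parts t ρ (vec B j)).1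
  have hP : ∀ j < B ^ (4 + t.size), PP t ρ (vec B j) - PM t ρ (vec B j) < 2 ^ u := by
    intro j _
    have h2 : PP t ρ (vec B j) ≤ PP t ρ (fun _ => B) :=
      ep_mono_le eP ρ (vec B j) (fun _ => B) fun k _ => (vec_lt B j k (by omega)).le
    have h3 : u < 2 ^ u := Nat.lt_two_pow_self
    omega
  have h4 := cnt_hw (B ^ (4 + t.size)) u (fun j => PP t ρ (vec B j) - PM t ρ (vec B j)) (by omega) hP
  have h5 := cnt_sub_sum (B ^ (4 + t.size)) (fun j => PP t ρ (vec B j))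
    (fun j => PM t ρ (vec B j)) (fun j => (2 ^ (2 * u)) ^ j) (2 ^ u - 1) hle
  beta_reduce at h4 h5
  rw [h5] at h4
  rw [h4]
  have h6 : ((range (B ^ (4 + t.size))).filter fun j =>
      PP t ρ (vec B j) - PM t ρ (vec B j) = 0) =
      (range (B ^ (4 + t.size))).filter fun j => PP t ρ (vec B j) = PM t ρ (vec B j) := by
    refine Finset.filter_congr fun j _ => ?_
    have := hle j
    omega
  rw [h6, h1]
  exact Finset.sum_congr rfl fun x _ => ht _

end Pool.Agent.CFK
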