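import Mathlib

/-!
# CFK: closed arithmetic expressions (MP_3fdbfc_nt)

Internal terms `T` (variables `var i` evaluated by `ρ : ℕ → ℕ`), `Rep f`: the function `f` of the
valuation is given by a term.
-/

namespace Pool.Agent.CFK

open Finset

/-- terms; `divS a b` stands for `a / (b + 1)` -/
inductive T : Type
  | var (i : ℕ) : T
  | const (c : ℕ) : T
  | add (a b : T) : T
  | sub (a b : T) : T
  | mul (a b : T) : T
  | divS (a b : T) : T
  | pow2 (a : T) : T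

/-- value of a term -/
def T.ev (ρ : ℕ → ℕ) : T → ℕ
  | .var i => ρ i
  | .const c => c
  | .add a b => a.ev ρ + b.ev ρ
  | .sub a b => a.ev ρ - b.ev ρ
  | .mul a b => a.ev ρ * b.ev ρ
  | .divS a b => a.ev ρ / (b.ev ρ + 1)
  | .pow2 a => 2 ^ a.ev ρ

/-- `f` is given by a term -/
def Rep (f : (ℕ → ℕ) → ℕ) : Prop := ∃ t : T, ∀ ρ, t.ev ρ = f ρ

/-- `p` has a representable 0-1-valued characteristic function -/
def RepP (p : (ℕ → ℕ) → Prop) : Prop :=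
  ∃ g : (ℕ → ℕ) → ℕ, Rep g ∧ ∀ ρ, (p ρ → g ρ = 1) ∧ (¬ p ρ → g ρ = 0)

/-- tail of a valuation -/
def tl (ρ : ℕ → ℕ) : ℕ → ℕ := fun k => ρ (k + 1)

/-- `cons x ρ` -/
def cons (x : ℕ) (ρ : ℕ → ℕ) : ℕ → ℕ
  | 0 => x
  | k + 1 => ρ k

/-- Hamming weight -/
def hw (n : ℕ) : ℕ := (Nat.digits 2 n).sum

/-- one-dimensional functions -/
inductive F1 : Type
  | one : F1
  | id : F1
  | sq : F1
  | p2 : F1
  | p4 : F1

/-- value: `1, x, x^2, 2^x, 4^x` -/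
def F1.ev : F1 → ℕ → ℕ
  | .one, _ => 1
  | .id, x => x
  | .sq, x => x ^ 2
  | .p2, x => 2 ^ x
  | .p4, x => 4 ^ x

/-- digits in base `B` of `j` -/
def vec (B j : ℕ) : ℕ → ℕ := fun k => j / B ^ k % B

/-- exponential polynomials with nonnegative representable coefficients in the variables `v k`, `k < m` -/
inductive EP (m : ℕ) : ((ℕ → ℕ) → (ℕ → ℕ) → ℕ) → Prop
  | mono {c : (ℕ → ℕ) → ℕ} (hc : Rep c) (μ : ℕ → F1) :
      EP m (fun ρ v => c ρ * ∏ k ∈ range m, (μ k).ev (v k))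
  | add {F G : (ℕ → ℕ) → (ℕ → ℕ) → ℕ} (hF : EP m F) (hG : EP m G) :
      EP m (fun ρ v => F ρ v + G ρ v)

/-! ## The system of a term

`v 0` is the value of `var 0`, `var (i + 1)` is the parameter `ρ i`. The block of variables of the
term `t` at the offset `s` is `v k`, `s ≤ k < s + t.size`; `v s` is the value of `t`. -/

/-- number of variables used for a term -/
def T.size : T → ℕ
  | .var _ => 1
  | .const _ => 1
  | .add a b => 1 + a.size + b.size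
  | .sub a b => 2 + a.size + b.size
  | .mul a b => 1 + a.size + b.size
  | .divS a b => 3 + a.size + b.size
  | .pow2 a => 1 + a.size

/-- the system of equations -/
def Sat : T → ℕ → (ℕ → ℕ) → (ℕ → ℕ) → Prop
  | .var 0, s, _, v => v s = v 0
  | .var (i + 1), s, ρ, v => v s = ρ i
  | .const c, s, _, v => v s = c
  | .add a b, s, ρ, v => v s = v (s + 1) + v (s + 1 + a.size) ∧
      Sat a (s + 1) ρ v ∧ Sat b (s + 1 + a.size) ρ v
  | .sub a b, s, ρ, v => v (s + 2) + v (s + 1) = v (s + 2 + a.size) + v s ∧ v s * v (s + 1) = 0 ∧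
      Sat a (s + 2) ρ v ∧ Sat b (s + 2 + a.size) ρ v
  | .mul a b, s, ρ, v => v s = v (s + 1) * v (s + 1 + a.size) ∧
      Sat a (s + 1) ρ v ∧ Sat b (s + 1 + a.size) ρ v
  | .divS a b, s, ρ, v => v (s + 3) = (v (s + 3 + a.size) + 1) * v s + v (s + 1) ∧
      v (s + 1) + v (s + 2) = v (s + 3 + a.size) ∧
      Sat a (s + 3) ρ v ∧ Sat b (s + 3 + a.size) ρ v
  | .pow2 a, s, ρ, v => v s = 2 ^ v (s + 1) ∧ Sat a (s + 1) ρ v

/-- positive part of the sum of the squared errors -/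
def Pp : T → ℕ → (ℕ → ℕ) → (ℕ → ℕ) → ℕ
  | .var 0, s, _, v => v s ^ 2 + v 0 ^ 2
  | .var (i + 1), s, ρ, v => v s ^ 2 + ρ i ^ 2
  | .const c, s, _, v => v s ^ 2 + c ^ 2
  | .add a b, s, ρ, v =>
      v s ^ 2 + v (s + 1) ^ 2 + v (s + 1 + a.size) ^ 2 + 2 * (v (s + 1) * v (s + 1 + a.size)) +
      Pp a (s + 1) ρ v + Pp b (s + 1 + a.size) ρ v
  | .sub a b, s, ρ, v =>
      v (s + 2) ^ 2 + v (s + 1) ^ 2 + v (s + 2 + a.size) ^ 2 + v s ^ 2 +
      2 * (v (s + 2) * v (s + 1)) + 2 * (v (s + 2 + a.size) * v s) + v s * v (s + 1) +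
      Pp a (s + 2) ρ v + Pp b (s + 2 + a.size) ρ v
  | .mul a b, s, ρ, v =>
      v s ^ 2 + v (s + 1) ^ 2 * v (s + 1 + a.size) ^ 2 +
      Pp a (s + 1) ρ v + Pp b (s + 1 + a.size) ρ v
  | .divS a b, s, ρ, v =>
      v (s + 3 + a.size) ^ 2 * v s ^ 2 + v s ^ 2 + v (s + 1) ^ 2 + v (s + 3) ^ 2 +
      2 * (v (s + 3 + a.size) * v s ^ 2) + 2 * (v (s + 3 + a.size) * v s * v (s + 1)) +
      2 * (v s * v (s + 1)) +
      v (s + 1) ^ 2 + v (s + 2) ^ 2 + v (s + 3 + a.size) ^ 2 + 2 * (v (s + 1) * v (s + 2)) +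
      Pp a (s + 3) ρ v + Pp b (s + 3 + a.size) ρ v
  | .pow2 a, s, ρ, v => v s ^ 2 + 4 ^ v (s + 1) + Pp a (s + 1) ρ v

/-- negative part of the sum of the squared errors -/
def Pm : T → ℕ → (ℕ → ℕ) → (ℕ → ℕ) → ℕ
  | .var 0, s, _, v => 2 * (v s * v 0)
  | .var (i + 1), s, ρ, v => 2 * ρ i * v s
  | .const c, s, _, v => 2 * c * v s
  | .add a b, s, ρ, v =>
      2 * (v s * v (s + 1)) + 2 * (v s * v (s + 1 + a.size)) +
      Pm a (s + 1) ρ v + Pm b (s + 1 + a.size) ρ v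
  | .sub a b, s, ρ, v =>
      2 * (v (s + 2) * v (s + 2 + a.size)) + 2 * (v (s + 2) * v s) +
      2 * (v (s + 1) * v (s + 2 + a.size)) + 2 * (v (s + 1) * v s) +
      Pm a (s + 2) ρ v + Pm b (s + 2 + a.size) ρ v
  | .mul a b, s, ρ, v =>
      2 * (v s * v (s + 1) * v (s + 1 + a.size)) +
      Pm a (s + 1) ρ v + Pm b (s + 1 + a.size) ρ v
  | .divS a b, s, ρ, v =>
      2 * (v (s + 3 + a.size) * v s * v (s + 3)) + 2 * (v s * v (s + 3)) +
      2 * (v (s + 1) * v (s + 3)) +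
      2 * (v (s + 1) * v (s + 3 + a.size)) + 2 * (v (s + 2) * v (s + 3 + a.size)) +
      Pm a (s + 3) ρ v + Pm b (s + 3 + a.size) ρ v
  | .pow2 a, s, ρ, v => 2 * (v s * 2 ^ v (s + 1)) + Pm a (s + 1) ρ v

/-- monotone majorant of all the values in the block of `t` (argument: valuation of `t`) -/
def T.mj : T → (ℕ → ℕ) → ℕ
  | .var i, ρ => ρ i
  | .const c, _ => c
  | .add a b, ρ => a.mj ρ + b.mj ρ
  | .sub a b, ρ => a.mj ρ + b.mj ρ
  | .mul a b, ρ => a.mj ρ * b.mj ρ + a.mj ρ + b.mj ρ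
  | .divS a b, ρ => a.mj ρ + b.mj ρ
  | .pow2 a, ρ => 2 ^ a.mj ρ

end Pool.Agent.CFK
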