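import Pool.Agent.CFK.Pow

/-! Module Dig: extraction of a digit from a sum of powers, binomial coefficients.
`digit_extract`: split `S` into `f i < e`, `f i = e`, `f i > e`; the part `f i < e` has the sum
`∑_{e' < e} n_{e'} (2^M)^{e'}` with `n_{e'} < 2 ^ M`, hence it is `< 2 ^ (M e)` (or induction on `e`);
the part `f i > e` is divisible by `2 ^ (M (e + 1))`; the middle part is `card * 2 ^ (M e)`.
`choose_formula`: apply it to `S = (range n).powerset`, `f = card`, `M = n + 1`, with
`Finset.sum_pow_mul_eq_add_pow` or `Finset.prod_one_add` (or directly the binomial theorem). -/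

namespace Pool.Agent.CFK

open Finset

private theorem dig_low {ι : Type*} (A : Finset ι) (f : ι → ℕ) (M : ℕ)
    (hA : A.card < 2 ^ M) (e : ℕ) (hf : ∀ i ∈ A, f i < e) :
    ∑ i ∈ A, 2 ^ (M * f i) < 2 ^ (M * e) := by
  rcases Nat.eq_zero_or_pos e with he | he
  · subst he
    have : A = ∅ := by
      apply Finset.eq_empty_of_forall_notMem
      intro i hi
      exact absurd (hf i hi) (Nat.not_lt_zero _)
    subst this
    simp
  · have h1 : ∑ i ∈ A, 2 ^ (M * f i) ≤ A.card * 2 ^ (M * (e - 1)) := by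
      have := Finset.sum_le_card_nsmul A (fun i => 2 ^ (M * f i)) (2 ^ (M * (e - 1))) (by
        intro i hi
        apply Nat.pow_le_pow_right (by norm_num)
        exact Nat.mul_le_mul_left M (by have := hf i hi; omega))
      simpa using this
    have h2 : 2 ^ (M * e) = 2 ^ M * 2 ^ (M * (e - 1)) := by
      rw [← pow_add]
      congr 1
      obtain ⟨c, rfl⟩ : ∃ c, e = c + 1 := ⟨e - 1, by omega⟩
      simp only [Nat.add_sub_cancel]
      ring
    rw [h2]
    refine lt_of_le_of_lt h1 ?_
    exact Nat.mul_lt_mul_of_pos_right hA (by positivity)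

theorem digit_extract {ι : Type*} [DecidableEq ι] (S : Finset ι) (f : ι → ℕ) (M : ℕ)
    (hS : S.card < 2 ^ M) (e : ℕ) :
    (∑ i ∈ S, 2 ^ (M * f i)) / 2 ^ (M * e) % 2 ^ M = (S.filter fun i => f i = e).card := by
  have hpos : 0 < 2 ^ (M * e) := by positivity
  have hA : ∑ i ∈ S.filter (fun i => f i < e), 2 ^ (M * f i) < 2 ^ (M * e) := by
    apply dig_low
    · exact lt_of_le_of_lt (Finset.card_filter_le _ _) hS
    · intro i hi
      exact (Finset.mem_filter.mp hi).2
  have hB : ∑ i ∈ S.filter (fun i => f i = e), 2 ^ (M * f i)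
      = (S.filter fun i => f i = e).card * 2 ^ (M * e) := by
    rw [Finset.sum_congr rfl (g := fun _ => 2 ^ (M * e))]
    · simp
    · intro i hi
      rw [(Finset.mem_filter.mp hi).2]
  have hC : (2 ^ M * 2 ^ (M * e)) ∣ ∑ i ∈ S.filter (fun i => e < f i), 2 ^ (M * f i) := by
    apply Finset.dvd_sum
    intro i hi
    have hi' := (Finset.mem_filter.mp hi).2
    rw [← pow_add]
    apply pow_dvd_pow
    calc M + M * e = M * (e + 1) := by ring
      _ ≤ M * f i := Nat.mul_le_mul_left M hi'
  obtain ⟨K, hK⟩ := hC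
  have hsplit : ∑ i ∈ S, 2 ^ (M * f i)
      = ∑ i ∈ S.filter (fun i => f i < e), 2 ^ (M * f i)
        + (∑ i ∈ S.filter (fun i => f i = e), 2 ^ (M * f i)
          + ∑ i ∈ S.filter (fun i => e < f i), 2 ^ (M * f i)) := by
    rw [Finset.sum_filter, Finset.sum_filter, Finset.sum_filter, ← Finset.sum_add_distrib,
      ← Finset.sum_add_distrib]
    apply Finset.sum_congr rfl
    intro i _
    rcases lt_trichotomy (f i) e with h | h | h
    · rw [if_pos h, if_neg (by omega), if_neg (by omega)]
      simp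
    · rw [if_neg (by omega), if_pos h, if_neg (by omega)]
      simp
    · rw [if_neg (by omega), if_neg (by omega), if_pos h]
      simp
  rw [hsplit, hB, hK]
  have hre : (S.filter fun i => f i = e).card * 2 ^ (M * e) + 2 ^ M * 2 ^ (M * e) * K
      = ((S.filter fun i => f i = e).card + 2 ^ M * K) * 2 ^ (M * e) := by ring
  rw [hre, Nat.add_mul_div_right _ _ hpos, Nat.div_eq_of_lt hA, Nat.zero_add,
    Nat.add_mul_mod_self_left, Nat.mod_eq_of_lt]
  exact lt_of_le_of_lt (Finset.card_filter_le _ _) hS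

theorem choose_formula (n k : ℕ) :
    (2 ^ (n + 1) + 1) ^ n / 2 ^ ((n + 1) * k) % 2 ^ (n + 1) = n.choose k := by
  have h := digit_extract (Finset.range n).powerset Finset.card (n + 1)
    (by
      rw [Finset.card_powerset, Finset.card_range]
      exact Nat.pow_lt_pow_right (by norm_num) (Nat.lt_succ_self n)) k
  have h2 : (∑ t ∈ (Finset.range n).powerset, 2 ^ ((n + 1) * t.card)) = (2 ^ (n + 1) + 1) ^ n := by
    have h3 := Finset.sum_pow_mul_eq_add_pow (2 ^ (n + 1)) 1 (Finset.range n)
    rw [Finset.card_range] at h3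
    rw [← h3]
    apply Finset.sum_congr rfl
    intro t _
    rw [one_pow, mul_one, ← pow_mul]
  rw [h2] at h
  rw [h, ← Finset.powersetCard_eq_filter, Finset.card_powersetCard, Finset.card_range]

theorem rep_choose {f g : (ℕ → ℕ) → ℕ} (hf : Rep f) (hg : Rep g) :
    Rep (fun ρ => (f ρ).choose (g ρ)) := by
  have h1 : Rep (fun ρ => f ρ + 1) := rep_add hf (rep_const 1)
  have h2 : Rep (fun ρ => 2 ^ (f ρ + 1)) := rep_two_pow h1
  have h3 : Rep (fun ρ => (2 ^ (f ρ + 1) + 1) ^ f ρ) := rep_pow (rep_add h2 (rep_const 1)) hf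
  have h4 : Rep (fun ρ => 2 ^ ((f ρ + 1) * g ρ)) := rep_two_pow (rep_mul h1 hg)
  exact rep_congr (rep_mod (rep_div h3 h4) h2) (fun ρ => choose_formula (f ρ) (g ρ))

end Pool.Agent.CFK
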