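import Pool.Agent.CFK.Box

/-! Module Epp: the two parts of the system are exponential polynomials. Induction on `t`
(generalise `s`), `EP.add`, `ep_v0` .. `ep_v3`; each monomial by `ep_v*` and a rewriting
(`v s ^ 2 = 1 * F1.sq.ev (v s)`, ...). `1 ≤ s` keeps the block disjoint from the variable 0. -/

namespace Pool.Agent.CFK

open Finset

theorem ep_congr {m : ℕ} {F G : (ℕ → ℕ) → (ℕ → ℕ) → ℕ} (hF : EP m F) (h : ∀ ρ v, F ρ v = G ρ v) :
    EP m G := by
  have hFG : F = G := by
    funext ρ v
    exact h ρ v
  rw [← hFG]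
  exact hF

theorem epp_rc (c : ℕ) : Rep (fun _ => c) := ⟨T.const c, fun _ => rfl⟩

theorem epp_rsq (i : ℕ) : Rep (fun ρ => ρ i ^ 2) :=
  ⟨T.mul (T.var i) (T.var i), fun ρ => by simp only [T.ev]; ring⟩

theorem epp_r2 (i : ℕ) : Rep (fun ρ => 2 * ρ i) :=
  ⟨T.mul (T.const 2) (T.var i), fun _ => rfl⟩

/-- one variable, constant coefficient -/
theorem epp_m1 {m : ℕ} (c : ℕ) (φ : F1) {i : ℕ} (hi : i < m) :
    EP m (fun _ v => c * φ.ev (v i)) := ep_v1 (epp_rc c) φ hi

/-- two variables, constant coefficient -/
theorem epp_m2 {m : ℕ} (c : ℕ) (φ ψ : F1) {i j : ℕ} (hi : i < m) (hj : j < m) (hij : i ≠ j) :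
    EP m (fun _ v => c * (φ.ev (v i) * ψ.ev (v j))) := ep_v2 (epp_rc c) φ ψ hi hj hij

/-- three variables, constant coefficient -/
theorem epp_m3 {m : ℕ} (c : ℕ) (φ ψ χ : F1) {i j k : ℕ} (hi : i < m) (hj : j < m) (hk : k < m)
    (hij : i ≠ j) (hik : i ≠ k) (hjk : j ≠ k) :
    EP m (fun _ v => c * (φ.ev (v i) * ψ.ev (v j) * χ.ev (v k))) :=
  ep_v3 (epp_rc c) φ ψ χ hi hj hk hij hik hjk

theorem epp_size_pos (t : T) : 1 ≤ t.size := by
  cases t <;> simp only [T.size] <;> omega

theorem ep_Pp (t : T) (s m : ℕ) (hs : 1 ≤ s) (hm : s + t.size ≤ m) : EP m (Pp t s) := by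
  induction t generalizing s with
  | var i =>
    simp only [T.size] at hm
    cases i with
    | zero =>
      refine ep_congr (EP.add (epp_m1 (m := m) 1 F1.sq (i := s) (by omega))
        (epp_m1 (m := m) 1 F1.sq (i := 0) (by omega))) ?_
      intro ρ v
      simp only [Pp, F1.ev, one_mul]
    | succ i =>
      refine ep_congr (EP.add (epp_m1 (m := m) 1 F1.sq (i := s) (by omega))
        (ep_v0 m (epp_rsq i))) ?_
      intro ρ v
      simp only [Pp, F1.ev, one_mul]
  | const c =>
    simp only [T.size] at hm
    refine ep_congr (EP.add (epp_m1 (m := m) 1 F1.sq (i := s) (by omega))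
      (ep_v0 m (epp_rc (c ^ 2)))) ?_
    intro ρ v
    simp only [Pp, F1.ev, one_mul]
  | add a b iha ihb =>
    simp only [T.size] at hm
    have ha := epp_size_pos a
    have hb := epp_size_pos b
    have h1 := iha (s + 1) (by omega) (by omega)
    have h2 := ihb (s + 1 + a.size) (by omega) (by omega)
    have m1 := epp_m1 (m := m) 1 F1.sq (i := s) (by omega)
    have m2 := epp_m1 (m := m) 1 F1.sq (i := s + 1) (by omega)
    have m3 := epp_m1 (m := m) 1 F1.sq (i := s + 1 + a.size) (by omega)
    have m4 := epp_m2 (m := m) 2 F1.id F1.id (i := s + 1) (j := s + 1 + a.size)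
      (by omega) (by omega) (by omega)
    refine ep_congr (EP.add (EP.add (EP.add (EP.add (EP.add m1 m2) m3) m4) h1) h2) ?_
    intro ρ v
    simp only [Pp, F1.ev, one_mul]
  | sub a b iha ihb =>
    simp only [T.size] at hm
    have ha := epp_size_pos a
    have hb := epp_size_pos b
    have h1 := iha (s + 2) (by omega) (by omega)
    have h2 := ihb (s + 2 + a.size) (by omega) (by omega)
    have m1 := epp_m1 (m := m) 1 F1.sq (i := s + 2) (by omega)
    have m2 := epp_m1 (m := m) 1 F1.sq (i := s + 1) (by omega)
    have m3 := epp_m1 (m := m) 1 F1.sq (i := s + 2 + a.size) (by omega)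
    have m4 := epp_m1 (m := m) 1 F1.sq (i := s) (by omega)
    have m5 := epp_m2 (m := m) 2 F1.id F1.id (i := s + 2) (j := s + 1)
      (by omega) (by omega) (by omega)
    have m6 := epp_m2 (m := m) 2 F1.id F1.id (i := s + 2 + a.size) (j := s)
      (by omega) (by omega) (by omega)
    have m7 := epp_m2 (m := m) 1 F1.id F1.id (i := s) (j := s + 1)
      (by omega) (by omega) (by omega)
    refine ep_congr (EP.add (EP.add (EP.add (EP.add (EP.add (EP.add (EP.add (EP.add m1 m2) m3)
      m4) m5) m6) m7) h1) h2) ?_
    intro ρ v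
    simp only [Pp, F1.ev, one_mul]
  | mul a b iha ihb =>
    simp only [T.size] at hm
    have ha := epp_size_pos a
    have hb := epp_size_pos b
    have h1 := iha (s + 1) (by omega) (by omega)
    have h2 := ihb (s + 1 + a.size) (by omega) (by omega)
    have m1 := epp_m1 (m := m) 1 F1.sq (i := s) (by omega)
    have m2 := epp_m2 (m := m) 1 F1.sq F1.sq (i := s + 1) (j := s + 1 + a.size)
      (by omega) (by omega) (by omega)
    refine ep_congr (EP.add (EP.add (EP.add m1 m2) h1) h2) ?_
    intro ρ v
    simp only [Pp, F1.ev, one_mul]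
  | divS a b iha ihb =>
    simp only [T.size] at hm
    have ha := epp_size_pos a
    have hb := epp_size_pos b
    have h1 := iha (s + 3) (by omega) (by omega)
    have h2 := ihb (s + 3 + a.size) (by omega) (by omega)
    have m1 := epp_m2 (m := m) 1 F1.sq F1.sq (i := s + 3 + a.size) (j := s)
      (by omega) (by omega) (by omega)
    have m2 := epp_m1 (m := m) 1 F1.sq (i := s) (by omega)
    have m3 := epp_m1 (m := m) 1 F1.sq (i := s + 1) (by omega)
    have m4 := epp_m1 (m := m) 1 F1.sq (i := s + 3) (by omega)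
    have m5 := epp_m2 (m := m) 2 F1.id F1.sq (i := s + 3 + a.size) (j := s)
      (by omega) (by omega) (by omega)
    have m6 := epp_m3 (m := m) 2 F1.id F1.id F1.id (i := s + 3 + a.size) (j := s) (k := s + 1)
      (by omega) (by omega) (by omega) (by omega) (by omega) (by omega)
    have m7 := epp_m2 (m := m) 2 F1.id F1.id (i := s) (j := s + 1)
      (by omega) (by omega) (by omega)
    have m8 := epp_m1 (m := m) 1 F1.sq (i := s + 1) (by omega)
    have m9 := epp_m1 (m := m) 1 F1.sq (i := s + 2) (by omega)
    have m10 := epp_m1 (m := m) 1 F1.sq (i := s + 3 + a.size) (by omega)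
    have m11 := epp_m2 (m := m) 2 F1.id F1.id (i := s + 1) (j := s + 2)
      (by omega) (by omega) (by omega)
    refine ep_congr (EP.add (EP.add (EP.add (EP.add (EP.add (EP.add (EP.add (EP.add (EP.add
      (EP.add (EP.add (EP.add m1 m2) m3) m4) m5) m6) m7) m8) m9) m10) m11) h1) h2) ?_
    intro ρ v
    simp only [Pp, F1.ev, one_mul]
  | pow2 a iha =>
    simp only [T.size] at hm
    have ha := epp_size_pos a
    have h1 := iha (s + 1) (by omega) (by omega)
    have m1 := epp_m1 (m := m) 1 F1.sq (i := s) (by omega)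
    have m2 := epp_m1 (m := m) 1 F1.p4 (i := s + 1) (by omega)
    refine ep_congr (EP.add (EP.add m1 m2) h1) ?_
    intro ρ v
    simp only [Pp, F1.ev, one_mul]

theorem ep_Pm (t : T) (s m : ℕ) (hs : 1 ≤ s) (hm : s + t.size ≤ m) : EP m (Pm t s) := by
  induction t generalizing s with
  | var i =>
    simp only [T.size] at hm
    cases i with
    | zero =>
      refine ep_congr (epp_m2 (m := m) 2 F1.id F1.id (i := s) (j := 0)
        (by omega) (by omega) (by omega)) ?_
      intro ρ v
      simp only [Pm, F1.ev]
    | succ i =>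
      refine ep_congr (ep_v1 (m := m) (epp_r2 i) F1.id (i := s) (by omega)) ?_
      intro ρ v
      simp only [Pm, F1.ev]
  | const c =>
    simp only [T.size] at hm
    refine ep_congr (ep_v1 (m := m) (epp_rc (2 * c)) F1.id (i := s) (by omega)) ?_
    intro ρ v
    simp only [Pm, F1.ev]
  | add a b iha ihb =>
    simp only [T.size] at hm
    have ha := epp_size_pos a
    have hb := epp_size_pos b
    have h1 := iha (s + 1) (by omega) (by omega)
    have h2 := ihb (s + 1 + a.size) (by omega) (by omega)
    have m1 := epp_m2 (m := m) 2 F1.id F1.id (i := s) (j := s + 1)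
      (by omega) (by omega) (by omega)
    have m2 := epp_m2 (m := m) 2 F1.id F1.id (i := s) (j := s + 1 + a.size)
      (by omega) (by omega) (by omega)
    refine ep_congr (EP.add (EP.add (EP.add m1 m2) h1) h2) ?_
    intro ρ v
    simp only [Pm, F1.ev]
  | sub a b iha ihb =>
    simp only [T.size] at hm
    have ha := epp_size_pos a
    have hb := epp_size_pos b
    have h1 := iha (s + 2) (by omega) (by omega)
    have h2 := ihb (s + 2 + a.size) (by omega) (by omega)
    have m1 := epp_m2 (m := m) 2 F1.id F1.id (i := s + 2) (j := s + 2 + a.size)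
      (by omega) (by omega) (by omega)
    have m2 := epp_m2 (m := m) 2 F1.id F1.id (i := s + 2) (j := s)
      (by omega) (by omega) (by omega)
    have m3 := epp_m2 (m := m) 2 F1.id F1.id (i := s + 1) (j := s + 2 + a.size)
      (by omega) (by omega) (by omega)
    have m4 := epp_m2 (m := m) 2 F1.id F1.id (i := s + 1) (j := s)
      (by omega) (by omega) (by omega)
    refine ep_congr (EP.add (EP.add (EP.add (EP.add (EP.add m1 m2) m3) m4) h1) h2) ?_
    intro ρ v
    simp only [Pm, F1.ev]
  | mul a b iha ihb =>
    simp only [T.size] at hm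
    have ha := epp_size_pos a
    have hb := epp_size_pos b
    have h1 := iha (s + 1) (by omega) (by omega)
    have h2 := ihb (s + 1 + a.size) (by omega) (by omega)
    have m1 := epp_m3 (m := m) 2 F1.id F1.id F1.id (i := s) (j := s + 1) (k := s + 1 + a.size)
      (by omega) (by omega) (by omega) (by omega) (by omega) (by omega)
    refine ep_congr (EP.add (EP.add m1 h1) h2) ?_
    intro ρ v
    simp only [Pm, F1.ev]
  | divS a b iha ihb =>
    simp only [T.size] at hm
    have ha := epp_size_pos a
    have hb := epp_size_pos b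
    have h1 := iha (s + 3) (by omega) (by omega)
    have h2 := ihb (s + 3 + a.size) (by omega) (by omega)
    have m1 := epp_m3 (m := m) 2 F1.id F1.id F1.id (i := s + 3 + a.size) (j := s) (k := s + 3)
      (by omega) (by omega) (by omega) (by omega) (by omega) (by omega)
    have m2 := epp_m2 (m := m) 2 F1.id F1.id (i := s) (j := s + 3)
      (by omega) (by omega) (by omega)
    have m3 := epp_m2 (m := m) 2 F1.id F1.id (i := s + 1) (j := s + 3)
      (by omega) (by omega) (by omega)
    have m4 := epp_m2 (m := m) 2 F1.id F1.id (i := s + 1) (j := s + 3 + a.size)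
      (by omega) (by omega) (by omega)
    have m5 := epp_m2 (m := m) 2 F1.id F1.id (i := s + 2) (j := s + 3 + a.size)
      (by omega) (by omega) (by omega)
    refine ep_congr (EP.add (EP.add (EP.add (EP.add (EP.add (EP.add m1 m2) m3) m4) m5) h1) h2) ?_
    intro ρ v
    simp only [Pm, F1.ev]
  | pow2 a iha =>
    simp only [T.size] at hm
    have ha := epp_size_pos a
    have h1 := iha (s + 1) (by omega) (by omega)
    have m1 := epp_m2 (m := m) 2 F1.id F1.p2 (i := s) (j := s + 1)
      (by omega) (by omega) (by omega)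
    refine ep_congr (EP.add m1 h1) ?_
    intro ρ v
    simp only [Pm, F1.ev]

end Pool.Agent.CFK
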