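import Pool.Agent.CFK.Dig

/-! Module Gcd. For `a, b ≥ 1` the number of pairs `x ≤ b`, `y ≤ a` with `a x + b y = a b` is
`gcd a b + 1` (`x = (b / g) t`, `t ≤ g`, `y = (a / g) (g - t)`). With `M = a b + a + b + 2`
(`(a + 1) (b + 1) < 2 ^ M`) `digit_extract` for the pairs and `f (x, y) = a x + b y`, `e = a b` gives
`(∑_{x ≤ b} 2^(M a x)) (∑_{y ≤ a} 2^(M b y)) / 2^(M a b) % 2^M = gcd a b + 1`, and the two sums are
geometric: `Nat.geomSum_eq`. `rep_gcd`: `rep_ite` for `a = 0` (value `b`) and `b = 0` (value `a`). -/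

namespace Pool.Agent.CFK

open Finset

theorem card_pairs (a b : ℕ) (ha : 1 ≤ a) (hb : 1 ≤ b) :
    (((range (b + 1)) ×ˢ (range (a + 1))).filter fun p => a * p.1 + b * p.2 = a * b).card
      = Nat.gcd a b + 1 := by
  obtain ⟨a', b', hco, hA, hB⟩ := Nat.exists_coprime a b
  set g := Nat.gcd a b with hg
  have hgpos : 0 < g := Nat.gcd_pos_of_pos_left b ha
  have ha' : 0 < a' := by
    rcases Nat.eq_zero_or_pos a' with h | h
    · rw [h, Nat.zero_mul] at hA; omega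
    · exact h
  have hb' : 0 < b' := by
    rcases Nat.eq_zero_or_pos b' with h | h
    · rw [h, Nat.zero_mul] at hB; omega
    · exact h
  have himg : (((range (b + 1)) ×ˢ (range (a + 1))).filter fun p => a * p.1 + b * p.2 = a * b)
      = (range (g + 1)).image (fun t => (b' * t, a' * (g - t))) := by
    ext ⟨x, y⟩
    simp only [mem_filter, mem_product, mem_range, mem_image, Prod.mk.injEq]
    constructor
    · rintro ⟨⟨hx, hy⟩, he⟩
      have h1 : a' * x + b' * y = a' * b' * g := by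
        have h2 : g * (a' * x + b' * y) = g * (a' * b' * g) := by
          calc g * (a' * x + b' * y) = (a' * g) * x + (b' * g) * y := by ring
            _ = a * x + b * y := by rw [← hA, ← hB]
            _ = a * b := he
            _ = (a' * g) * (b' * g) := by rw [← hA, ← hB]
            _ = g * (a' * b' * g) := by ring
        exact Nat.eq_of_mul_eq_mul_left hgpos h2
      have hdvd : b' ∣ a' * x := by
        have h3 : b' ∣ a' * x + b' * y := by
          rw [h1]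
          exact ⟨a' * g, by ring⟩
        exact (Nat.dvd_add_left (Dvd.intro y rfl)).mp h3
      have hdx : b' ∣ x := (Nat.Coprime.symm hco).dvd_of_dvd_mul_left hdvd
      obtain ⟨t, rfl⟩ := hdx
      have h4 : a' * t + y = a' * g := by
        have h5 : b' * (a' * t + y) = b' * (a' * g) := by
          calc b' * (a' * t + y) = a' * (b' * t) + b' * y := by ring
            _ = a' * b' * g := h1
            _ = b' * (a' * g) := by ring
        exact Nat.eq_of_mul_eq_mul_left hb' h5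
      have h6 : t ≤ g := by
        have h7 : a' * t ≤ a' * g := by omega
        exact Nat.le_of_mul_le_mul_left h7 ha'
      refine ⟨t, by omega, rfl, ?_⟩
      rw [Nat.mul_sub]
      omega
    · rintro ⟨t, ht, hx, hy⟩
      have htg : t ≤ g := by omega
      subst hx
      subst hy
      have h8 : b' * t ≤ b := by
        calc b' * t ≤ b' * g := Nat.mul_le_mul_left _ htg
          _ = b := hB.symm
      have h9 : a' * (g - t) ≤ a := by
        calc a' * (g - t) ≤ a' * g := Nat.mul_le_mul_left _ (Nat.sub_le _ _)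
          _ = a := hA.symm
      refine ⟨⟨by omega, by omega⟩, ?_⟩
      obtain ⟨s, hs⟩ := Nat.exists_eq_add_of_le htg
      have hst : g - t = s := by omega
      rw [hst]
      calc a * (b' * t) + b * (a' * s)
          = (a' * g) * (b' * t) + (b' * g) * (a' * s) := by rw [← hA, ← hB]
        _ = (a' * g) * (b' * (t + s)) := by ring
        _ = (a' * g) * (b' * g) := by rw [← hs]
        _ = a * b := by rw [← hA, ← hB]
  rw [himg, card_image_of_injective, card_range]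
  intro t s hts
  simp only [Prod.mk.injEq] at hts
  exact Nat.eq_of_mul_eq_mul_left hb' hts.1

theorem gcd_formula (a b M : ℕ) (ha : 1 ≤ a) (hb : 1 ≤ b) (hM : M = a * b + a + b + 2) :
    (((2 ^ (M * a)) ^ (b + 1) - 1) / (2 ^ (M * a) - 1)) *
      (((2 ^ (M * b)) ^ (a + 1) - 1) / (2 ^ (M * b) - 1)) / 2 ^ (M * (a * b)) % 2 ^ M
      = Nat.gcd a b + 1 := by
  have hMpos : 1 ≤ M := by omega
  have h2a : 2 ≤ 2 ^ (M * a) := by
    calc 2 = 2 ^ 1 := rfl
      _ ≤ 2 ^ (M * a) := Nat.pow_le_pow_right (by norm_num) (Nat.mul_pos hMpos ha)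
  have h2b : 2 ≤ 2 ^ (M * b) := by
    calc 2 = 2 ^ 1 := rfl
      _ ≤ 2 ^ (M * b) := Nat.pow_le_pow_right (by norm_num) (Nat.mul_pos hMpos hb)
  rw [← Nat.geomSum_eq h2a, ← Nat.geomSum_eq h2b]
  have hcard : ((range (b + 1)) ×ˢ (range (a + 1))).card < 2 ^ M := by
    rw [card_product, card_range, card_range]
    calc (b + 1) * (a + 1) = a * b + a + b + 1 := by ring
      _ < M := by omega
      _ < 2 ^ M := Nat.lt_two_pow_self
  have hd := digit_extract ((range (b + 1)) ×ˢ (range (a + 1)))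
    (fun p => a * p.1 + b * p.2) M hcard (a * b)
  rw [card_pairs a b ha hb] at hd
  rw [← hd]
  congr 2
  rw [sum_mul_sum, ← sum_product']
  refine sum_congr rfl fun p _ => ?_
  rw [← pow_mul, ← pow_mul, ← pow_add]
  congr 1
  ring

theorem rep_gcd {f g : (ℕ → ℕ) → ℕ} (hf : Rep f) (hg : Rep g) :
    Rep (fun ρ => Nat.gcd (f ρ) (g ρ)) := by
  have h1 : Rep (fun _ : ℕ → ℕ => 1) := rep_const 1
  have h0 : Rep (fun _ : ℕ → ℕ => 0) := rep_const 0
  have hM : Rep (fun ρ => f ρ * g ρ + f ρ + g ρ + 2) :=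
    rep_add (rep_add (rep_add (rep_mul hf hg) hf) hg) (rep_const 2)
  have hPa : Rep (fun ρ => 2 ^ ((f ρ * g ρ + f ρ + g ρ + 2) * f ρ)) := rep_two_pow (rep_mul hM hf)
  have hPb : Rep (fun ρ => 2 ^ ((f ρ * g ρ + f ρ + g ρ + 2) * g ρ)) := rep_two_pow (rep_mul hM hg)
  have hA : Rep (fun ρ => ((2 ^ ((f ρ * g ρ + f ρ + g ρ + 2) * f ρ)) ^ (g ρ + 1) - 1) /
      (2 ^ ((f ρ * g ρ + f ρ + g ρ + 2) * f ρ) - 1)) :=
    rep_div (rep_sub (rep_pow hPa (rep_add hg h1)) h1) (rep_sub hPa h1)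
  have hB : Rep (fun ρ => ((2 ^ ((f ρ * g ρ + f ρ + g ρ + 2) * g ρ)) ^ (f ρ + 1) - 1) /
      (2 ^ ((f ρ * g ρ + f ρ + g ρ + 2) * g ρ) - 1)) :=
    rep_div (rep_sub (rep_pow hPb (rep_add hf h1)) h1) (rep_sub hPb h1)
  have hC : Rep (fun ρ => ((2 ^ ((f ρ * g ρ + f ρ + g ρ + 2) * f ρ)) ^ (g ρ + 1) - 1) /
      (2 ^ ((f ρ * g ρ + f ρ + g ρ + 2) * f ρ) - 1) *
      (((2 ^ ((f ρ * g ρ + f ρ + g ρ + 2) * g ρ)) ^ (f ρ + 1) - 1) /
      (2 ^ ((f ρ * g ρ + f ρ + g ρ + 2) * g ρ) - 1)) /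
      2 ^ ((f ρ * g ρ + f ρ + g ρ + 2) * (f ρ * g ρ)) % 2 ^ (f ρ * g ρ + f ρ + g ρ + 2) - 1) :=
    rep_sub (rep_mod (rep_div (rep_mul hA hB) (rep_two_pow (rep_mul hM (rep_mul hf hg))))
      (rep_two_pow hM)) h1
  have hfin : Rep (fun ρ => if f ρ = 0 then g ρ else if g ρ = 0 then f ρ else
      ((2 ^ ((f ρ * g ρ + f ρ + g ρ + 2) * f ρ)) ^ (g ρ + 1) - 1) /
      (2 ^ ((f ρ * g ρ + f ρ + g ρ + 2) * f ρ) - 1) *
      (((2 ^ ((f ρ * g ρ + f ρ + g ρ + 2) * g ρ)) ^ (f ρ + 1) - 1) /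
      (2 ^ ((f ρ * g ρ + f ρ + g ρ + 2) * g ρ) - 1)) /
      2 ^ ((f ρ * g ρ + f ρ + g ρ + 2) * (f ρ * g ρ)) % 2 ^ (f ρ * g ρ + f ρ + g ρ + 2) - 1) :=
    rep_ite (repP_eq hf h0) hg (rep_ite (repP_eq hg h0) hf hC)
  refine rep_congr hfin fun ρ => ?_
  by_cases hfz : f ρ = 0
  · rw [if_pos hfz, hfz, Nat.gcd_zero_left]
  · rw [if_neg hfz]
    by_cases hgz : g ρ = 0
    · rw [if_pos hgz, hgz, Nat.gcd_zero_right]
    · rw [if_neg hgz, gcd_formula (f ρ) (g ρ) _ (Nat.one_le_iff_ne_zero.mpr hfz)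
        (Nat.one_le_iff_ne_zero.mpr hgz) rfl]
      rfl

end Pool.Agent.CFK
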