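import Pool.Agent.CFK.Pow

/-! Module Geo: `∑_{x < B} φ(x) q^x` is representable for `φ = 1, x, x^2, 2^x, 4^x`, `q ≥ 2`.
Closed forms (put `r = q - 1`; prove the identities over `ℤ` by induction on `B`, then divide):
`r ∑ q^x = q^B - 1`; `r² ∑ x q^x = (B r - q) q^B + q`  (`= B q^(B+1) - (B+1)... `, any form you like);
`r³ ∑ x² q^x = (B² r² - 2 B q r + q (q + 1)) q^B - q (q + 1)`. Over `ℕ`: `a + b = c` form and
`Nat.div_eq_of_eq_mul_right`. For `p2`, `p4` use `2^x q^x = (2 q)^x`. Alternatively: the double sum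
`∑_{x < B} x q^x = ∑_{y < B} ∑_{y < x < B} q^x`. -/

namespace Pool.Agent.CFK

open Finset

theorem geo_sum_one (r B : ℕ) : r * ∑ x ∈ range B, (r + 1) ^ x + 1 = (r + 1) ^ B := by
  induction B with
  | zero => simp
  | succ B ih =>
    rw [sum_range_succ, mul_add, pow_succ (r + 1) B, ← ih]
    ring_nf

theorem geo_sum_id (r B : ℕ) :
    r ^ 2 * ∑ x ∈ range B, x * (r + 1) ^ x + (r + 1) * (r + 1) ^ B =
      B * r * (r + 1) ^ B + (r + 1) := by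
  induction B with
  | zero => simp
  | succ B ih =>
    rw [sum_range_succ, mul_add, pow_succ (r + 1) B]
    set S := ∑ x ∈ range B, x * (r + 1) ^ x
    set Q := (r + 1) ^ B
    have h1 : r ^ 2 * S + r ^ 2 * (B * Q) + (r + 1) * (Q * (r + 1)) =
        (r ^ 2 * S + (r + 1) * Q) + (r ^ 2 * (B * Q) + (r + 1) * Q * r) := by ring
    rw [h1, ih]
    ring

theorem geo_sum_sq (r B : ℕ) :
    r ^ 3 * ∑ x ∈ range B, x ^ 2 * (r + 1) ^ x +
      (2 * B * (r + 1) * r * (r + 1) ^ B + (r + 1) * (r + 2)) =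
      (B ^ 2 * r ^ 2 + (r + 1) * (r + 2)) * (r + 1) ^ B := by
  induction B with
  | zero => simp
  | succ B ih =>
    rw [sum_range_succ, mul_add, pow_succ (r + 1) B]
    set S := ∑ x ∈ range B, x ^ 2 * (r + 1) ^ x
    set Q := (r + 1) ^ B
    have h : (r : ℤ) ^ 3 * S + (2 * B * (r + 1) * r * Q + (r + 1) * (r + 2)) =
        (B ^ 2 * r ^ 2 + (r + 1) * (r + 2)) * Q := by exact_mod_cast ih
    have : (r : ℤ) ^ 3 * S + r ^ 3 * (B ^ 2 * Q) +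
        (2 * (B + 1) * (r + 1) * r * (Q * (r + 1)) + (r + 1) * (r + 2)) =
        ((B + 1) ^ 2 * r ^ 2 + (r + 1) * (r + 2)) * (Q * (r + 1)) := by
      linear_combination h
    exact_mod_cast this

theorem geo_rep_one {q B : (ℕ → ℕ) → ℕ} (hq : Rep q) (h2 : ∀ ρ, 2 ≤ q ρ) (hB : Rep B) :
    Rep (fun ρ => ∑ x ∈ range (B ρ), q ρ ^ x) := by
  refine rep_congr (rep_div (rep_sub (rep_pow hq hB) (rep_const 1)) (rep_sub hq (rep_const 1))) ?_
  intro ρ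
  obtain ⟨r, hr⟩ : ∃ r, q ρ = r + 1 := ⟨q ρ - 1, by have := h2 ρ; omega⟩
  have hr0 : 0 < r := by have := h2 ρ; omega
  have h := geo_sum_one r (B ρ)
  change (q ρ ^ B ρ - 1) / (q ρ - 1) = ∑ x ∈ range (B ρ), q ρ ^ x
  rw [hr, Nat.add_sub_cancel]
  refine Nat.div_eq_of_eq_mul_right hr0 ?_
  omega

theorem geo_rep_id {q B : (ℕ → ℕ) → ℕ} (hq : Rep q) (h2 : ∀ ρ, 2 ≤ q ρ) (hB : Rep B) :
    Rep (fun ρ => ∑ x ∈ range (B ρ), x * q ρ ^ x) := by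
  have hr := rep_sub hq (rep_const 1)
  refine rep_congr (rep_div (rep_sub (rep_add (rep_mul (rep_mul hB hr) (rep_pow hq hB)) hq)
    (rep_mul hq (rep_pow hq hB))) (rep_npow hr 2)) ?_
  intro ρ
  obtain ⟨r, hr⟩ : ∃ r, q ρ = r + 1 := ⟨q ρ - 1, by have := h2 ρ; omega⟩
  have hr0 : 0 < r := by have := h2 ρ; omega
  have h := geo_sum_id r (B ρ)
  change (B ρ * (q ρ - 1) * q ρ ^ B ρ + q ρ - q ρ * q ρ ^ B ρ) / (q ρ - 1) ^ 2 =
    ∑ x ∈ range (B ρ), x * q ρ ^ x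
  rw [hr, Nat.add_sub_cancel]
  refine Nat.div_eq_of_eq_mul_right (pow_pos hr0 2) ?_
  omega

theorem geo_rep_sq {q B : (ℕ → ℕ) → ℕ} (hq : Rep q) (h2 : ∀ ρ, 2 ≤ q ρ) (hB : Rep B) :
    Rep (fun ρ => ∑ x ∈ range (B ρ), x ^ 2 * q ρ ^ x) := by
  have hr := rep_sub hq (rep_const 1)
  refine rep_congr (rep_div (rep_sub
    (rep_mul (rep_add (rep_mul (rep_npow hB 2) (rep_npow hr 2))
      (rep_mul hq (rep_add hq (rep_const 1)))) (rep_pow hq hB))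
    (rep_add (rep_mul (rep_mul (rep_mul (rep_mul (rep_const 2) hB) hq) hr) (rep_pow hq hB))
      (rep_mul hq (rep_add hq (rep_const 1))))) (rep_npow hr 3)) ?_
  intro ρ
  obtain ⟨r, hr⟩ : ∃ r, q ρ = r + 1 := ⟨q ρ - 1, by have := h2 ρ; omega⟩
  have hr0 : 0 < r := by have := h2 ρ; omega
  have h := geo_sum_sq r (B ρ)
  change ((B ρ ^ 2 * (q ρ - 1) ^ 2 + q ρ * (q ρ + 1)) * q ρ ^ B ρ -
    (2 * B ρ * q ρ * (q ρ - 1) * q ρ ^ B ρ + q ρ * (q ρ + 1))) / (q ρ - 1) ^ 3 =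
    ∑ x ∈ range (B ρ), x ^ 2 * q ρ ^ x
  rw [hr, Nat.add_sub_cancel]
  refine Nat.div_eq_of_eq_mul_right (pow_pos hr0 3) ?_
  have e : r + 1 + 1 = r + 2 := rfl
  rw [e]
  omega

theorem rep_geo (φ : F1) {q B : (ℕ → ℕ) → ℕ} (hq : Rep q) (h2 : ∀ ρ, 2 ≤ q ρ) (hB : Rep B) :
    Rep (fun ρ => ∑ x ∈ range (B ρ), φ.ev x * q ρ ^ x) := by
  cases φ with
  | one =>
    refine rep_congr (geo_rep_one hq h2 hB) ?_
    intro ρ
    simp [F1.ev]
  | id => exact geo_rep_id hq h2 hB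
  | sq => exact geo_rep_sq hq h2 hB
  | p2 =>
    refine rep_congr (geo_rep_one (rep_mul (rep_const 2) hq)
      (fun ρ => by have := h2 ρ; omega) hB) ?_
    intro ρ
    refine sum_congr rfl fun x _ => ?_
    change (2 * q ρ) ^ x = 2 ^ x * q ρ ^ x
    rw [mul_pow]
  | p4 =>
    refine rep_congr (geo_rep_one (rep_mul (rep_const 4) hq)
      (fun ρ => by have := h2 ρ; omega) hB) ?_
    intro ρ
    refine sum_congr rfl fun x _ => ?_
    change (4 * q ρ) ^ x = 4 ^ x * q ρ ^ x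
    rw [mul_pow]

end Pool.Agent.CFK
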