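import Pool.Agent.CFK.Sum
import Pool.Agent.Kro.Fin1
import Pool.Agent.Kro.PCor

/-! Module KA: the functions of the greedy algorithm, part 1 (translate `Pool.Agent.Kro.PFun`:
composition style instead of `Primrec`). -/

namespace Pool.Agent.CFK

open Finset Pool.Agent.Kro

theorem rep_s (d : ℕ) {k : (ℕ → ℕ) → ℕ} (hk : Rep k) : Rep (fun ρ => s d (k ρ)) := by
  unfold s
  exact rep_ite (repP_eq hk (rep_const 0)) (rep_const 0)
    (rep_two_pow (rep_add (rep_const _) (rep_mul (rep_const _) (rep_sub hk (rep_const 1)))))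

theorem rep_E (d : ℕ) {k : (ℕ → ℕ) → ℕ} (hk : Rep k) : Rep (fun ρ => E d (k ρ)) := by
  unfold E
  exact rep_add (rep_const _) (rep_mul (rep_const _) hk)

theorem rep_A (d : ℕ) {k : (ℕ → ℕ) → ℕ} (hk : Rep k) : Rep (fun ρ => A d (k ρ)) := by
  unfold A
  exact rep_mul (rep_mul (rep_const _) (rep_add (rep_E d hk) (rep_const 1)))
    (rep_npow (rep_add (rep_mul (rep_const 2) (rep_s d hk)) (rep_const 3)) d)

theorem rep_nn (d : ℕ) {k : (ℕ → ℕ) → ℕ} (hk : Rep k) : Rep (fun ρ => nn d (k ρ)) := by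
  unfold nn
  exact rep_two_pow (rep_sub (rep_s d hk) (rep_s d (rep_sub hk (rep_const 1))))

theorem rep_child {d : ℕ} {n m : (ℕ → ℕ) → ℕ} {c : Fin d → (ℕ → ℕ) → ℕ} (hn : Rep n)
    (hc : ∀ i, Rep (c i)) (hm : Rep m) (i : Fin d) :
    Rep (fun ρ => child (n ρ) (fun i' => c i' ρ) (m ρ) i) := by
  unfold child
  exact rep_add (rep_mul (hc i) hn) (rep_mod (rep_div hm (rep_npow hn i)) hn)

theorem rep_fc2 (d : ℕ) {k : (ℕ → ℕ) → ℕ} {c j : Fin d → (ℕ → ℕ) → ℕ} (hk : Rep k)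
    (hc : ∀ i, Rep (c i)) (hj : ∀ i, Rep (j i)) :
    Rep (fun ρ => fc2 d (k ρ) (fun i => c i ρ) (fun i => j i ρ)) := by
  have hS : Rep (fun ρ => s d (k ρ)) := rep_s d hk
  have hS1 : Rep (fun ρ => s d (k ρ - 1)) := rep_s d (rep_sub hk (rep_const 1))
  have hE : Rep (fun ρ => E d (k ρ)) := rep_E d hk
  have hE1 : Rep (fun ρ => E d (k ρ - 1)) := rep_E d (rep_sub hk (rep_const 1))
  have h2S : Rep (fun ρ => 2 ^ s d (k ρ)) := rep_two_pow hS
  have hnd : ∀ i, Rep (fun ρ => nd (2 ^ s d (k ρ)) (j i ρ)) := by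
    intro i
    unfold nd
    exact rep_add (rep_sub (hj i) h2S) (rep_sub h2S (hj i))
  have hrc : Rep (fun ρ => rc (2 ^ s d (k ρ)) (fun i => j i ρ)) := by
    unfold rc
    exact rep_fin_prod (f := fun i ρ => max 1 (nd (2 ^ s d (k ρ)) (j i ρ)))
      fun i => rep_max (rep_const 1) (hnd i)
  have hmc : Rep (fun ρ => mc (2 ^ s d (k ρ)) (fun i => j i ρ)) := by
    unfold mc
    exact rep_fin_sup (f := fun i ρ => nd (2 ^ s d (k ρ)) (j i ρ)) hnd
  have htc : Rep (fun ρ => tc (s d (k ρ)) (2 ^ s d (k ρ)) (fun i => j i ρ) (fun i => c i ρ)) := by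
    unfold tc
    refine rep_mod (rep_add ?_ (rep_mul (rep_mul (rep_sub h2S (rep_const 1)) h2S) ?_)) h2S
    · exact rep_fin_sum (f := fun i ρ => j i ρ * c i ρ) fun i => rep_mul (hj i) (hc i)
    · exact rep_fin_sum (f := fun i ρ => c i ρ) hc
  have hw : Rep (fun ρ =>
      min (tc (s d (k ρ)) (2 ^ s d (k ρ)) (fun i => j i ρ) (fun i => c i ρ))
        (2 ^ s d (k ρ) - tc (s d (k ρ)) (2 ^ s d (k ρ)) (fun i => j i ρ) (fun i => c i ρ))) :=
    rep_min htc (rep_sub h2S htc)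
  have hR : Rep (fun ρ => rc (2 ^ s d (k ρ)) (fun i => j i ρ) *
      mc (2 ^ s d (k ρ)) (fun i => j i ρ)) := rep_mul hrc hmc
  have hsum : Rep (fun ρ => ∑ e ∈ range (E d (k ρ) + 1),
      if 2 ^ e * rc (2 ^ s d (k ρ)) (fun i => j i ρ) *
          min (tc (s d (k ρ)) (2 ^ s d (k ρ)) (fun i => j i ρ) (fun i => c i ρ))
            (2 ^ s d (k ρ) - tc (s d (k ρ)) (2 ^ s d (k ρ)) (fun i => j i ρ) (fun i => c i ρ))
            ≤ 4 ^ (d + 1) * 2 ^ (s d (k ρ)) then 2 ^ e else 0) := by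
    refine rep_sum (n := fun ρ => E d (k ρ) + 1) (f := fun ρ e =>
      if 2 ^ e * rc (2 ^ s d (k ρ)) (fun i => j i ρ) *
          min (tc (s d (k ρ)) (2 ^ s d (k ρ)) (fun i => j i ρ) (fun i => c i ρ))
            (2 ^ s d (k ρ) - tc (s d (k ρ)) (2 ^ s d (k ρ)) (fun i => j i ρ) (fun i => c i ρ))
            ≤ 4 ^ (d + 1) * 2 ^ (s d (k ρ)) then 2 ^ e else 0) (rep_add hE (rep_const 1)) ?_
    have h0 : Rep (fun ρ => 2 ^ ρ 0) := rep_two_pow (rep_var 0)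
    exact rep_ite (repP_le (rep_mul (rep_mul h0 (rep_tl hrc)) (rep_tl hw))
      (rep_mul (rep_const _) (rep_tl h2S))) h0 (rep_const 0)
  unfold fc2
  exact rep_ite (repP_and
    (repP_le (rep_mul hR (rep_two_pow (rep_add hE (rep_const d)))) h2S)
    (repP_lt (rep_two_pow hS1) (rep_mul hR (rep_two_pow (rep_add hE1 (rep_const d))))))
    hsum (rep_const 0)

end Pool.Agent.CFK
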