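import Pool.Agent.CFK.KA

/-! Module KB: the functions of the greedy algorithm, part 2 (translate `prim_FF`, `prim_GG`,
`prim_Good` of `Kro.PFun`; `rep_sum`, `FF_code`, `PFun_GG`). -/

namespace Pool.Agent.CFK

open Finset Pool.Agent.Kro

theorem rep_FF (d : ℕ) {k : (ℕ → ℕ) → ℕ} {c : Fin d → (ℕ → ℕ) → ℕ} (hk : Rep k)
    (hc : ∀ i, Rep (c i)) : Rep (fun ρ => FF d (k ρ) (fun i => c i ρ)) := by
  have hn : Rep (fun ρ => 2 * 2 ^ s d (k ρ) + 1) :=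
    rep_add (rep_mul (rep_const 2) (rep_two_pow (rep_s d hk))) (rep_const 1)
  have hN : Rep (fun ρ => (2 * 2 ^ s d (k ρ) + 1) ^ d) := rep_npow hn d
  have hj : ∀ i : Fin d, Rep (fun ρ =>
      child (2 * 2 ^ s d (k (tl ρ)) + 1) (fun _ : Fin d => 0) (ρ 0) i) := fun i =>
    rep_child (n := fun ρ => 2 * 2 ^ s d (k (tl ρ)) + 1) (m := fun ρ => ρ 0)
      (c := fun (_ : Fin d) (_ : ℕ → ℕ) => 0) (rep_tl hn) (fun _ => rep_const 0) (rep_var 0) i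
  have hf : Rep (fun ρ => fc2 d (k (tl ρ)) (fun i => c i (tl ρ))
      (fun i => child (2 * 2 ^ s d (k (tl ρ)) + 1) (fun _ : Fin d => 0) (ρ 0) i)) :=
    rep_fc2 d (k := fun ρ => k (tl ρ)) (c := fun i ρ => c i (tl ρ))
      (j := fun i ρ => child (2 * 2 ^ s d (k (tl ρ)) + 1) (fun _ : Fin d => 0) (ρ 0) i)
      (rep_tl hk) (fun i => rep_tl (hc i)) hj
  have h := rep_sum (n := fun ρ => (2 * 2 ^ s d (k ρ) + 1) ^ d)
    (f := fun ρ m => fc2 d (k ρ) (fun i => c i ρ)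
      (fun i => child (2 * 2 ^ s d (k ρ) + 1) (fun _ : Fin d => 0) m i)) hN hf
  refine rep_congr h fun ρ => ?_
  exact (FF_code d (k ρ) (fun i => c i ρ)).symm

theorem rep_GG (d : ℕ) {k : (ℕ → ℕ) → ℕ} {c : Fin d → (ℕ → ℕ) → ℕ} (hk : Rep k)
    (hc : ∀ i, Rep (c i)) : Rep (fun ρ => GG d (k ρ) (fun i => c i ρ)) := by
  have hk1 : Rep (fun ρ => k ρ + 1) := rep_add hk (rep_const 1)
  have hn : Rep (fun ρ => nn d (k ρ + 1)) := rep_nn d hk1
  have hN : Rep (fun ρ => nn d (k ρ + 1) ^ d) := rep_npow hn d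
  have hj : ∀ i : Fin d, Rep (fun ρ =>
      child (nn d (k (tl ρ) + 1)) (fun i' => c i' (tl ρ)) (ρ 0) i) := fun i =>
    rep_child (n := fun ρ => nn d (k (tl ρ) + 1)) (m := fun ρ => ρ 0)
      (c := fun (i' : Fin d) (ρ : ℕ → ℕ) => c i' (tl ρ)) (rep_tl hn) (fun i' => rep_tl (hc i'))
      (rep_var 0) i
  have hf : Rep (fun ρ => FF d (k (tl ρ) + 1)
      (fun i => child (nn d (k (tl ρ) + 1)) (fun i' => c i' (tl ρ)) (ρ 0) i)) :=
    rep_FF d (k := fun ρ => k (tl ρ) + 1)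
      (c := fun i ρ => child (nn d (k (tl ρ) + 1)) (fun i' => c i' (tl ρ)) (ρ 0) i)
      (rep_tl hk1) hj
  have h := rep_sum (n := fun ρ => nn d (k ρ + 1) ^ d)
    (f := fun ρ m => FF d (k ρ + 1)
      (fun i => child (nn d (k ρ + 1)) (fun i' => c i' ρ) m i)) hN hf
  refine rep_congr h fun ρ => ?_
  exact (PFun_GG d (k ρ) (fun i => c i ρ)).symm

theorem repP_Good (d : ℕ) {k : (ℕ → ℕ) → ℕ} {c : Fin d → (ℕ → ℕ) → ℕ} (hk : Rep k)
    (hc : ∀ i, Rep (c i)) : RepP (fun ρ => Good d (k ρ) (fun i => c i ρ)) := by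
  have hk1 : Rep (fun ρ => k ρ + 1) := rep_add hk (rep_const 1)
  have hn : Rep (fun ρ => nn d (k ρ + 1) ^ d) := rep_npow (rep_nn d hk1) d
  have hA : Rep (fun ρ => A d (k ρ)) := rep_A d hk
  have hA1 : Rep (fun ρ => A d (k ρ + 1)) := rep_A d hk1
  have hF : Rep (fun ρ => FF d (k ρ) (fun i => c i ρ)) := rep_FF d hk hc
  have hG : Rep (fun ρ => GG d (k ρ) (fun i => c i ρ)) := rep_GG d hk hc
  exact repP_le
    (rep_add (rep_mul hF (rep_mul hA1 hn)) (rep_mul (rep_mul (rep_const 2) hA) hG))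
    (rep_mul (rep_mul (rep_mul (rep_const 4) hA) hA1) hn)

end Pool.Agent.CFK
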