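import Pool.Agent.CFK.Sum

/-! Module Rec: bounded recursion with values in `Fin d → ℕ`. For `K = f ρ` put `w = b K`; the number
`c = ∑_{j ≤ K, i < d} X j i * 2 ^ (w (d j + i))` has the digits
`dig w c q := c / 2 ^ (w q) % 2 ^ w`, `q = d j + i < d (K + 1)`. The predicate
`p c : (∀ i, dig w c i = 0) ∧ ∀ j < K, ∀ i, dig w c (d (j + 1) + i) = stp j (fun i => dig w c (d j + i)) i`
implies `dig w c (d j + i) = X j i` for all `j ≤ K` (induction on `j`), and holds for the above `c`, so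
`X K i = dig w (sInf {c | c < 2 ^ (w (d (K + 1))) ∧ p c}) (d K + i)`; `rep_find`, `repP_forall`,
`repP_fin_forall`, `repP_eq`, `rep_pow`. -/

namespace Pool.Agent.CFK

open Finset

theorem rec_rep_vec {w c q : (ℕ → ℕ) → ℕ} (hw : Rep w) (hc : Rep c) (hq : Rep q) :
    Rep (fun ρ => vec (2 ^ w ρ) (c ρ) (q ρ)) := by
  refine rep_congr (rep_mod (rep_div hc (rep_two_pow (rep_mul hw hq))) (rep_two_pow hw)) ?_
  intro ρ
  unfold vec
  rw [pow_mul]

/-- the predicate of the code of the sequence -/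
def RecP {d : ℕ} (stp : ℕ → (Fin d → ℕ) → Fin d → ℕ) (w K c : ℕ) : Prop :=
  (∀ i : Fin d, vec (2 ^ w) c i = 0) ∧ ∀ j < K, ∀ i : Fin d,
    vec (2 ^ w) c (d * (j + 1) + i) = stp j (fun i' => vec (2 ^ w) c (d * j + i')) i

theorem rec_sound {d : ℕ} {X : ℕ → Fin d → ℕ} {stp : ℕ → (Fin d → ℕ) → Fin d → ℕ}
    (h0 : ∀ i, X 0 i = 0) (hs : ∀ k i, X (k + 1) i = stp k (X k) i) {w K c : ℕ}
    (h : RecP stp w K c) : ∀ j ≤ K, ∀ i : Fin d, vec (2 ^ w) c (d * j + i) = X j i := by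
  intro j
  induction j with
  | zero =>
    intro _ i
    rw [mul_zero, zero_add, h.1 i, h0 i]
  | succ j ih =>
    intro hj i
    rw [h.2 j (by omega) i, hs j i]
    have e : (fun i' : Fin d => vec (2 ^ w) c (d * j + i')) = X j := by
      funext i'
      exact ih (by omega) i'
    rw [e]

theorem rec_exists {d : ℕ} {X : ℕ → Fin d → ℕ} {stp : ℕ → (Fin d → ℕ) → Fin d → ℕ}
    {b : ℕ → ℕ} (h0 : ∀ i, X 0 i = 0) (hs : ∀ k i, X (k + 1) i = stp k (X k) i)
    (hb : ∀ k i, X k i < 2 ^ b k) (hbm : Monotone b) (K : ℕ) :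
    ∃ c < 2 ^ (b K * (d * (K + 1))), RecP stp (b K) K c := by
  have hv : ∀ q < d * (K + 1),
      (fun q => if hq : q % d < d then X (q / d) ⟨q % d, hq⟩ else 0) q < 2 ^ b K := by
    intro q hq
    change (if hq : q % d < d then X (q / d) ⟨q % d, hq⟩ else 0) < 2 ^ b K
    split_ifs with h
    · have h1 : q / d < K + 1 := Nat.div_lt_of_lt_mul hq
      exact lt_of_lt_of_le (hb _ _) (Nat.pow_le_pow_right (by norm_num) (hbm (by omega)))
    · positivity
  obtain ⟨c, hc, hcv⟩ := vec_surj (2 ^ b K) (d * (K + 1)) _ hv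
  have key : ∀ j ≤ K, ∀ i : Fin d, vec (2 ^ b K) c (d * j + i) = X j i := by
    intro j hj i
    have hdpos : 0 < d := lt_of_le_of_lt (Nat.zero_le _) i.2
    have hlt : d * j + i < d * (K + 1) := by
      have h1 : d * j ≤ d * K := Nat.mul_le_mul_left _ hj
      have h2 := i.2
      have h3 : d * (K + 1) = d * K + d := by ring
      omega
    rw [hcv _ hlt]
    have h1 : (d * j + i) % d = i := by
      rw [Nat.mul_add_mod]
      exact Nat.mod_eq_of_lt i.2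
    have h2 : (d * j + i) / d = j := by
      rw [Nat.mul_add_div hdpos, Nat.div_eq_of_lt i.2, add_zero]
    have h3 : (d * j + i) % d < d := by rw [h1]; exact i.2
    rw [dif_pos h3]
    have h4 : (⟨(d * j + i) % d, h3⟩ : Fin d) = i := Fin.ext h1
    rw [h4, h2]
  refine ⟨c, by rw [pow_mul]; exact hc, ?_, ?_⟩
  · intro i
    have := key 0 (Nat.zero_le _) i
    rw [mul_zero, zero_add, h0 i] at this
    exact this
  · intro j hj i
    rw [key (j + 1) (by omega) i, hs j i]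
    have e : (fun i' : Fin d => vec (2 ^ b K) c (d * j + i')) = X j := by
      funext i'
      exact key j (by omega) i'
    rw [e]

theorem rep_rec {d : ℕ} (X : ℕ → Fin d → ℕ) (stp : ℕ → (Fin d → ℕ) → Fin d → ℕ) (b : ℕ → ℕ)
    (h0 : ∀ i, X 0 i = 0) (hs : ∀ k i, X (k + 1) i = stp k (X k) i)
    (hb : ∀ k i, X k i < 2 ^ b k) (hbm : Monotone b)
    (hbr : ∀ {f : (ℕ → ℕ) → ℕ}, Rep f → Rep (fun ρ => b (f ρ)))
    (hst : ∀ {k : (ℕ → ℕ) → ℕ} {c : Fin d → (ℕ → ℕ) → ℕ}, Rep k → (∀ i, Rep (c i)) →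
      ∀ i, Rep (fun ρ => stp (k ρ) (fun i' => c i' ρ) i))
    {f : (ℕ → ℕ) → ℕ} (hf : Rep f) (i : Fin d) : Rep (fun ρ => X (f ρ) i) := by
  have hw : Rep (fun ρ => b (f ρ)) := hbr hf
  have hw1 : Rep (fun ρ => b (f (tl ρ))) := rep_tl hw
  have hw2 : Rep (fun ρ => b (f (tl (tl ρ)))) := rep_tl hw1
  have hf1 : Rep (fun ρ => f (tl ρ)) := rep_tl hf
  have hv0 : Rep (fun ρ => ρ 0) := rep_var 0
  have hv1 : Rep (fun ρ => ρ 1) := rep_var 1
  have hn : Rep (fun ρ => 2 ^ (b (f ρ) * (d * (f ρ + 1)))) :=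
    rep_two_pow (rep_mul hw (rep_mul (rep_const d) (rep_add hf (rep_const 1))))
  have hp : RepP (fun ρ => RecP stp (b (f (tl ρ))) (f (tl ρ)) (ρ 0)) := by
    unfold RecP
    refine repP_and ?_ ?_
    · exact repP_fin_forall (p := fun (i : Fin d) ρ => vec (2 ^ b (f (tl ρ))) (ρ 0) i = 0)
        fun i => repP_eq (rec_rep_vec hw1 hv0 (rep_const _)) (rep_const 0)
    · refine repP_forall (n := fun ρ => f (tl ρ)) (p := fun ρ j => ∀ i : Fin d,
        vec (2 ^ b (f (tl ρ))) (ρ 0) (d * (j + 1) + i) =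
          stp j (fun i' => vec (2 ^ b (f (tl ρ))) (ρ 0) (d * j + i')) i) hf1 ?_
      refine repP_fin_forall (p := fun (i : Fin d) ρ =>
        vec (2 ^ b (f (tl (tl ρ)))) (ρ 1) (d * (ρ 0 + 1) + i) =
          stp (ρ 0) (fun i' => vec (2 ^ b (f (tl (tl ρ)))) (ρ 1) (d * ρ 0 + i')) i) fun i => ?_
      refine repP_eq (rec_rep_vec hw2 hv1
        (rep_add (rep_mul (rep_const d) (rep_add hv0 (rep_const 1))) (rep_const _))) ?_
      exact hst hv0 (c := fun i' ρ => vec (2 ^ b (f (tl (tl ρ)))) (ρ 1) (d * ρ 0 + i'))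
        (fun i' => rec_rep_vec hw2 hv1 (rep_add (rep_mul (rep_const d) hv0) (rep_const _))) i
  have hfind := rep_find (n := fun ρ => 2 ^ (b (f ρ) * (d * (f ρ + 1))))
    (p := fun ρ c => RecP stp (b (f ρ)) (f ρ) c) hn hp
  have hfin := rec_rep_vec hw hfind (rep_add (rep_mul (rep_const d) hf) (rep_const (i : ℕ)))
  refine rep_congr hfin ?_
  intro ρ
  have hne : {c | c < 2 ^ (b (f ρ) * (d * (f ρ + 1))) ∧ RecP stp (b (f ρ)) (f ρ) c}.Nonempty := by
    obtain ⟨c, hc, hcp⟩ := rec_exists h0 hs hb hbm (f ρ)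
    exact ⟨c, hc, hcp⟩
  have hmem := Nat.sInf_mem hne
  exact rec_sound h0 hs hmem.2 (f ρ) le_rfl i

end Pool.Agent.CFK
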