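import Pool.Agent.CFK.KB
import Pool.Agent.CFK.Rec

/-! Module KC: the corners and the digits (compare `Kro.PCor`, `Kro.Corner`). `corner_lt`: induction
(`child n c m i < (c i + 1) n`, `nn = 2 ^ (s (k+1) - s k)`, `s` is monotone). `rep_digit`: `rep_rec`
with `X = corner d`, `b = s d`, `stp k c = child (nn d (k + 1)) c (sInf ..)`, `rep_find`, `rep_child`,
`repP_Good`. -/

namespace Pool.Agent.CFK

open Finset Pool.Agent.Kro

theorem kc_s_mono (d : ℕ) : Monotone (s d) := by
  intro a b hab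
  unfold Pool.Agent.Kro.s
  by_cases ha : a = 0
  · simp [ha]
  · have hb : b ≠ 0 := by omega
    rw [if_neg ha, if_neg hb]
    apply Nat.pow_le_pow_right (by norm_num)
    apply Nat.add_le_add_left
    apply Nat.mul_le_mul_left
    omega

theorem corner_lt (d k : ℕ) (i : Fin d) : corner d k i < 2 ^ s d k := by
  induction k with
  | zero =>
    show 0 < 2 ^ s d 0
    positivity
  | succ k ih =>
    have hn : nn d (k + 1) = 2 ^ (s d (k + 1) - s d k) := rfl
    have hpos : 0 < nn d (k + 1) := by rw [hn]; positivity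
    have h1 : ∀ m : ℕ, child (nn d (k + 1)) (corner d k) m i < 2 ^ s d (k + 1) := by
      intro m
      have h2 : m / nn d (k + 1) ^ (i : ℕ) % nn d (k + 1) < nn d (k + 1) := Nat.mod_lt _ hpos
      have h3 : (corner d k i + 1) * nn d (k + 1) ≤ 2 ^ s d k * nn d (k + 1) :=
        Nat.mul_le_mul_right _ ih
      have h4 : 2 ^ s d k * nn d (k + 1) = 2 ^ s d (k + 1) := by
        rw [hn, ← pow_add]
        congr 1
        have := kc_s_mono d (Nat.le_succ k)
        simp only [Nat.succ_eq_add_one] at this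
        omega
      have h5 : (corner d k i + 1) * nn d (k + 1) = corner d k i * nn d (k + 1) + nn d (k + 1) := by
        ring
      show corner d k i * nn d (k + 1) + m / nn d (k + 1) ^ (i : ℕ) % nn d (k + 1) < _
      omega
    exact h1 _

theorem kc_rep_corner (d : ℕ) (i : Fin d) {f : (ℕ → ℕ) → ℕ} (hf : Rep f) :
    Rep (fun ρ => corner d (f ρ) i) := by
  refine rep_rec (corner d)
    (fun k c => child (nn d (k + 1)) c
      (sInf {m | m < nn d (k + 1) ^ d ∧ Good d (k + 1) (child (nn d (k + 1)) c m)}))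
    (s d) (fun i => rfl) (fun k i => rfl) (fun k i => corner_lt d k i) (kc_s_mono d)
    (fun hf => rep_s d hf) ?_ hf i
  intro k c hk hc i
  have hk1 : Rep (fun ρ => k ρ + 1) := rep_add hk (rep_const 1)
  have hn : Rep (fun ρ => nn d (k ρ + 1)) := rep_nn d hk1
  refine rep_child (n := fun ρ => nn d (k ρ + 1)) (c := c)
    (m := fun ρ => sInf {m | m < nn d (k ρ + 1) ^ d ∧
      Good d (k ρ + 1) (child (nn d (k ρ + 1)) (fun i' => c i' ρ) m)}) hn hc ?_ i
  refine rep_find (n := fun ρ => nn d (k ρ + 1) ^ d)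
    (p := fun ρ m => Good d (k ρ + 1) (child (nn d (k ρ + 1)) (fun i' => c i' ρ) m))
    (rep_npow hn d) ?_
  have hk1' : Rep (fun ρ => k (tl ρ) + 1) := rep_tl hk1
  have hn' : Rep (fun ρ => nn d (k (tl ρ) + 1)) := rep_tl hn
  exact repP_Good d (k := fun ρ => k (tl ρ) + 1)
    (c := fun i' ρ => child (nn d (k (tl ρ) + 1)) (fun i'' => c i'' (tl ρ)) (ρ 0) i') hk1'
    (fun i' => rep_child hn' (fun i'' => rep_tl (hc i'')) (rep_var 0) i')

theorem rep_digit (d : ℕ) (i : Fin d) {f : (ℕ → ℕ) → ℕ} (hf : Rep f) :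
    Rep (fun ρ => digit d i (f ρ)) := by
  have hf1 : Rep (fun ρ => f ρ + 1) := rep_add hf (rep_const 1)
  have h1 : Rep (fun ρ => corner d (f ρ + 1) i) := kc_rep_corner d i hf1
  have h2 : Rep (fun ρ => 2 ^ (s d (f ρ + 1) - (f ρ + 1))) :=
    rep_two_pow (rep_sub (rep_s d hf1) hf1)
  exact rep_mod (rep_div h1 h2) (rep_const 2)

end Pool.Agent.CFK
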