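import Pool.Agent.CFK.Basic

/-! Module Pow: `x ^ y = 2 ^ (m y) % (2 ^ m - x)` with `m = x y + x + 1` (Marchenkov).
`2 ^ m ≡ x mod (2 ^ m - x)`; `x ^ y < 2 ^ m - x`: `x ≤ 2 ^ x` gives `x ^ y ≤ 2 ^ (x y)` and
`2 ^ (x y) + x < 2 ^ m` because `x < 2 ^ x`. (For `x = 0`: `m = 1`, `2 ^ y % 2`.) -/

namespace Pool.Agent.CFK

open Finset

theorem pow_formula (x y : ℕ) :
    2 ^ ((x * y + x + 1) * y) % (2 ^ (x * y + x + 1) - x) = x ^ y := by
  have h1 : x < 2 ^ x := Nat.lt_two_pow_self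
  have h2 : x ^ y ≤ 2 ^ (x * y) := by
    rw [pow_mul]
    exact Nat.pow_le_pow_left h1.le y
  have h3 : 1 ≤ 2 ^ (x * y) := Nat.one_le_two_pow
  have h4 : 2 ^ (x * y + x + 1) = 2 ^ (x * y) * 2 ^ x * 2 := by
    rw [pow_succ, pow_add]
  have h5 : 2 ^ (x * y) + x < 2 ^ (x * y + x + 1) := by
    rw [h4]
    nlinarith
  have h6 : x ≤ 2 ^ (x * y + x + 1) := by omega
  have h7 : x ^ y < 2 ^ (x * y + x + 1) - x := by omega
  have h8 : 2 ^ (x * y + x + 1) ≡ x [MOD (2 ^ (x * y + x + 1) - x)] := by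
    have : 2 ^ (x * y + x + 1) = x + (2 ^ (x * y + x + 1) - x) := by omega
    conv_lhs => rw [this]
    exact Nat.add_modEq_right
  rw [pow_mul]
  have h9 := h8.pow y
  unfold Nat.ModEq at h9
  rw [h9, Nat.mod_eq_of_lt h7]

theorem rep_pow {f g : (ℕ → ℕ) → ℕ} (hf : Rep f) (hg : Rep g) : Rep (fun ρ => f ρ ^ g ρ) := by
  have hm : Rep (fun ρ => f ρ * g ρ + f ρ + 1) :=
    rep_add (rep_add (rep_mul hf hg) hf) (rep_const 1)
  exact rep_congr (rep_mod (rep_two_pow (rep_mul hm hg)) (rep_sub (rep_two_pow hm) hf))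
    (fun ρ => pow_formula (f ρ) (g ρ))

end Pool.Agent.CFK
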