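import Pool.Agent.CFK.Cnt

/-! Module Sum: bounded sums, bounded quantifier, bounded search, in a convenient form.
`rep_sum`: `rep_bsum` for `fun ρ => f (tl ρ) (ρ 0)` and `rep_comp` with the substitution
`0 ↦ n ρ`, `k + 1 ↦ ρ k` (`tl (cons x ρ) = ρ`). `repP_forall`: `∑_{i < n} (1 - χ) = 0`.
`rep_find`: the least `m < n` with `p` is `∑_{m < n} [∀ m' ≤ m, ¬ p m']` (number of `m < n` below it)
if it exists; otherwise this sum is `n` and the `sInf` is `0`. -/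

namespace Pool.Agent.CFK

open Finset

theorem sum_tl_cons (x : ℕ) (ρ : ℕ → ℕ) : tl (cons x ρ) = ρ := by
  funext k; rfl

theorem sum_cons_tl (ρ : ℕ → ℕ) : cons (ρ 0) (tl ρ) = ρ := by
  funext k
  cases k with
  | zero => rfl
  | succ k => rfl

/-- the substitution `0 ↦ n`, `k + 1 ↦ ρ k` -/
def sum_sub (n : (ℕ → ℕ) → ℕ) : ℕ → (ℕ → ℕ) → ℕ
  | 0 => n
  | k + 1 => fun ρ => ρ k

theorem sum_sub_rep {n : (ℕ → ℕ) → ℕ} (hn : Rep n) (i : ℕ) : Rep (sum_sub n i) := by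
  cases i with
  | zero => exact hn
  | succ k => exact rep_var k

theorem sum_sub_eq (n : (ℕ → ℕ) → ℕ) (ρ : ℕ → ℕ) : (fun i => sum_sub n i ρ) = cons (n ρ) ρ := by
  funext k
  cases k with
  | zero => rfl
  | succ k => rfl

theorem sum_repP_comp {p : (ℕ → ℕ) → Prop} (hp : RepP p) {g : ℕ → (ℕ → ℕ) → ℕ}
    (hg : ∀ i, Rep (g i)) : RepP (fun ρ => p (fun i => g i ρ)) := by
  obtain ⟨χ, h1, h2⟩ := hp
  exact ⟨fun ρ => χ (fun i => g i ρ), rep_comp h1 hg, fun ρ => h2 _⟩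

theorem rep_sum {n : (ℕ → ℕ) → ℕ} {f : (ℕ → ℕ) → ℕ → ℕ} (hn : Rep n)
    (hf : Rep (fun ρ => f (tl ρ) (ρ 0))) : Rep (fun ρ => ∑ i ∈ range (n ρ), f ρ i) := by
  have h1 := rep_bsum hf
  have h2 := rep_comp h1 (g := sum_sub n) (sum_sub_rep hn)
  refine rep_congr h2 ?_
  intro ρ
  rw [sum_sub_eq, sum_tl_cons]
  show ∑ x ∈ range (cons (n ρ) ρ 0), f (tl (cons x ρ)) (cons x ρ 0) = _
  refine Finset.sum_congr rfl ?_
  intro x _
  rw [sum_tl_cons]
  rfl

theorem repP_forall {n : (ℕ → ℕ) → ℕ} {p : (ℕ → ℕ) → ℕ → Prop} (hn : Rep n)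
    (hp : RepP (fun ρ => p (tl ρ) (ρ 0))) : RepP (fun ρ => ∀ i < n ρ, p ρ i) := by
  obtain ⟨χ, h1, h2⟩ := hp
  have h3 : Rep (fun ρ => ∑ i ∈ range (n ρ), (1 - χ (cons i ρ))) := by
    refine rep_sum (f := fun ρ i => 1 - χ (cons i ρ)) hn ?_
    refine rep_congr (rep_sub (rep_const 1) h1) ?_
    intro ρ
    show 1 - χ ρ = 1 - χ (cons (ρ 0) (tl ρ))
    rw [sum_cons_tl]
  refine repP_congr (repP_eq h3 (rep_const 0)) ?_
  intro ρ
  rw [Finset.sum_eq_zero_iff]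
  have h4 : ∀ i, (1 - χ (cons i ρ) = 0 ↔ p ρ i) := by
    intro i
    have h5 : (p ρ i → χ (cons i ρ) = 1) ∧ (¬ p ρ i → χ (cons i ρ) = 0) := h2 (cons i ρ)
    by_cases hpi : p ρ i
    · rw [h5.1 hpi]; simp [hpi]
    · rw [h5.2 hpi]; simp [hpi]
  constructor
  · intro h i hi
    exact (h4 i).1 (h i (Finset.mem_range.2 hi))
  · intro h i hi
    exact (h4 i).2 (h i (Finset.mem_range.1 hi))

theorem rep_find {n : (ℕ → ℕ) → ℕ} {p : (ℕ → ℕ) → ℕ → Prop} (hn : Rep n)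
    (hp : RepP (fun ρ => p (tl ρ) (ρ 0))) : Rep (fun ρ => sInf {m | m < n ρ ∧ p ρ m}) := by
  -- the predicate `∀ m' < ρ 0 + 1, ¬ p (tl ρ) m'`
  have hq : RepP (fun ρ => ∀ i < ρ 0 + 1, ¬ p (tl ρ) i) := by
    refine repP_forall (n := fun ρ => ρ 0 + 1) (p := fun ρ i => ¬ p (tl ρ) i)
      (rep_add (rep_var 0) (rep_const 1)) ?_
    refine repP_not ?_
    have h1 := sum_repP_comp hp (g := fun i => match i with
      | 0 => fun ρ => ρ 0
      | k + 1 => fun ρ => ρ (k + 2)) (by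
        intro i
        cases i with
        | zero => exact rep_var 0
        | succ k => exact rep_var (k + 2))
    refine repP_congr h1 ?_
    intro ρ
    exact Iff.rfl
  obtain ⟨χ, h1, h2⟩ := hq
  have h3 : Rep (fun ρ => ∑ i ∈ range (n ρ), χ (cons i ρ)) := by
    refine rep_sum (f := fun ρ i => χ (cons i ρ)) hn ?_
    refine rep_congr h1 ?_
    intro ρ
    show χ ρ = χ (cons (ρ 0) (tl ρ))
    rw [sum_cons_tl]
  classical
  refine rep_congr (rep_ite (repP_lt h3 hn) h3 (rep_const 0)) ?_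
  intro ρ
  have h4 : ∀ i, χ (cons i ρ) = if (∀ j < i + 1, ¬ p ρ j) then 1 else 0 := by
    intro i
    have h5 : ((∀ j < i + 1, ¬ p ρ j) → χ (cons i ρ) = 1) ∧
        (¬ (∀ j < i + 1, ¬ p ρ j) → χ (cons i ρ) = 0) := h2 (cons i ρ)
    split_ifs with h
    · exact h5.1 h
    · exact h5.2 h
  have h5 : ∑ i ∈ range (n ρ), χ (cons i ρ) =
      ((range (n ρ)).filter (fun i => ∀ j < i + 1, ¬ p ρ j)).card := by
    rw [Finset.card_filter]
    exact Finset.sum_congr rfl fun i _ => h4 i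
  by_cases hex : ∃ m, m < n ρ ∧ p ρ m
  · set m := Nat.find hex with hm
    have hm1 : m < n ρ ∧ p ρ m := Nat.find_spec hex
    have hm2 : ∀ j < m, ¬ p ρ j := by
      intro j hj hpj
      exact Nat.find_min hex hj ⟨lt_trans hj hm1.1, hpj⟩
    have h6 : (range (n ρ)).filter (fun i => ∀ j < i + 1, ¬ p ρ j) = range m := by
      ext i
      rw [Finset.mem_filter, Finset.mem_range, Finset.mem_range]
      constructor
      · intro h
        by_contra hc
        exact h.2 m (by omega) hm1.2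
      · intro h
        exact ⟨lt_trans h hm1.1, fun j hj => hm2 j (by omega)⟩
    have h7 : sInf {m | m < n ρ ∧ p ρ m} = m := by
      refine le_antisymm (Nat.sInf_le hm1) ?_
      have h8 : sInf {m | m < n ρ ∧ p ρ m} ∈ {m | m < n ρ ∧ p ρ m} := Nat.sInf_mem ⟨m, hm1⟩
      by_contra hc
      exact hm2 _ (not_le.1 hc) h8.2
    rw [h7, h5, h6, Finset.card_range, if_pos hm1.1]
  · have hno : ∀ j < n ρ, ¬ p ρ j := fun j hj hpj => hex ⟨j, hj, hpj⟩
    have h6 : (range (n ρ)).filter (fun i => ∀ j < i + 1, ¬ p ρ j) = range (n ρ) := by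
      refine Finset.filter_true_of_mem ?_
      intro i hi j hj
      exact hno j (by have := Finset.mem_range.1 hi; omega)
    have h7 : {m | m < n ρ ∧ p ρ m} = (∅ : Set ℕ) := by
      ext m
      exact ⟨fun h => hex ⟨m, h⟩, fun h => h.elim⟩
    rw [h7, h5, h6, Finset.card_range, if_neg (lt_irrefl _), Nat.sInf_empty]

end Pool.Agent.CFK
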