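import Pool.Agent.CFK.Defs

/-! Module Uniq: the system has exactly one solution for every value of the variable 0.
Induction on `t`, generalise `s` (and the vectors). `sat_congr`: `Sat` depends only on `v 0` and on
the block. (`sat_exists` is in module Exi.) -/

namespace Pool.Agent.CFK

open Finset

theorem uniq_size_pos (t : T) : 0 < t.size := by
  cases t <;> simp only [T.size] <;> omega

theorem ev_le_mj (t : T) (ρ : ℕ → ℕ) : t.ev ρ ≤ t.mj ρ := by
  induction t with
  | var i => simp only [T.ev, T.mj]; exact le_rfl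
  | const c => simp only [T.ev, T.mj]; exact le_rfl
  | add a b iha ihb => simp only [T.ev, T.mj]; omega
  | sub a b iha ihb => simp only [T.ev, T.mj]; omega
  | mul a b iha ihb =>
    simp only [T.ev, T.mj]
    have := Nat.mul_le_mul iha ihb
    omega
  | divS a b iha ihb =>
    simp only [T.ev, T.mj]
    have := Nat.div_le_self (a.ev ρ) (b.ev ρ + 1)
    omega
  | pow2 a iha =>
    simp only [T.ev, T.mj]
    exact Nat.pow_le_pow_right (by norm_num) iha

theorem mj_mono (t : T) (ρ ρ' : ℕ → ℕ) (h : ∀ i, ρ i ≤ ρ' i) : t.mj ρ ≤ t.mj ρ' := by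
  induction t with
  | var i => simp only [T.mj]; exact h i
  | const c => simp only [T.mj]; exact le_rfl
  | add a b iha ihb => simp only [T.mj]; omega
  | sub a b iha ihb => simp only [T.mj]; omega
  | mul a b iha ihb =>
    simp only [T.mj]
    have := Nat.mul_le_mul iha ihb
    omega
  | divS a b iha ihb => simp only [T.mj]; omega
  | pow2 a iha =>
    simp only [T.mj]
    exact Nat.pow_le_pow_right (by norm_num) iha

theorem sat_congr (t : T) (s : ℕ) (ρ v v' : ℕ → ℕ) (h0 : v 0 = v' 0)
    (h : ∀ k, s ≤ k → k < s + t.size → v k = v' k) : Sat t s ρ v ↔ Sat t s ρ v' := by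
  induction t generalizing s with
  | var i =>
    have e := h s le_rfl (by simp [T.size])
    cases i with
    | zero => simp only [Sat, e, h0]
    | succ i => simp only [Sat, e]
  | const c =>
    have e := h s le_rfl (by simp [T.size])
    simp only [Sat, e]
  | add a b iha ihb =>
    simp only [T.size] at h
    have pa := uniq_size_pos a
    have pb := uniq_size_pos b
    have ea := iha (s + 1) (fun k h1 h2 => h k (by omega) (by omega))
    have eb := ihb (s + 1 + a.size) (fun k h1 h2 => h k (by omega) (by omega))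
    have e0 := h s (by omega) (by omega)
    have e1 := h (s + 1) (by omega) (by omega)
    have e2 := h (s + 1 + a.size) (by omega) (by omega)
    simp only [Sat, ea, eb, e0, e1, e2]
  | sub a b iha ihb =>
    simp only [T.size] at h
    have pa := uniq_size_pos a
    have pb := uniq_size_pos b
    have ea := iha (s + 2) (fun k h1 h2 => h k (by omega) (by omega))
    have eb := ihb (s + 2 + a.size) (fun k h1 h2 => h k (by omega) (by omega))
    have e0 := h s (by omega) (by omega)
    have e1 := h (s + 1) (by omega) (by omega)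
    have e2 := h (s + 2) (by omega) (by omega)
    have e3 := h (s + 2 + a.size) (by omega) (by omega)
    simp only [Sat, ea, eb, e0, e1, e2, e3]
  | mul a b iha ihb =>
    simp only [T.size] at h
    have pa := uniq_size_pos a
    have pb := uniq_size_pos b
    have ea := iha (s + 1) (fun k h1 h2 => h k (by omega) (by omega))
    have eb := ihb (s + 1 + a.size) (fun k h1 h2 => h k (by omega) (by omega))
    have e0 := h s (by omega) (by omega)
    have e1 := h (s + 1) (by omega) (by omega)
    have e2 := h (s + 1 + a.size) (by omega) (by omega)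
    simp only [Sat, ea, eb, e0, e1, e2]
  | divS a b iha ihb =>
    simp only [T.size] at h
    have pa := uniq_size_pos a
    have pb := uniq_size_pos b
    have ea := iha (s + 3) (fun k h1 h2 => h k (by omega) (by omega))
    have eb := ihb (s + 3 + a.size) (fun k h1 h2 => h k (by omega) (by omega))
    have e0 := h s (by omega) (by omega)
    have e1 := h (s + 1) (by omega) (by omega)
    have e2 := h (s + 2) (by omega) (by omega)
    have e3 := h (s + 3) (by omega) (by omega)
    have e4 := h (s + 3 + a.size) (by omega) (by omega)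
    simp only [Sat, ea, eb, e0, e1, e2, e3, e4]
  | pow2 a iha =>
    simp only [T.size] at h
    have pa := uniq_size_pos a
    have ea := iha (s + 1) (fun k h1 h2 => h k (by omega) (by omega))
    have e0 := h s (by omega) (by omega)
    have e1 := h (s + 1) (by omega) (by omega)
    simp only [Sat, ea, e0, e1]

theorem sat_out (t : T) (s : ℕ) (ρ v : ℕ → ℕ) (h : Sat t s ρ v) : v s = t.ev (cons (v 0) ρ) := by
  induction t generalizing s with
  | var i =>
    cases i with
    | zero => simpa only [Sat, T.ev, cons] using h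
    | succ i => simpa only [Sat, T.ev, cons] using h
  | const c => simpa only [Sat, T.ev] using h
  | add a b iha ihb =>
    simp only [Sat] at h
    obtain ⟨h1, h2, h3⟩ := h
    simp only [T.ev]
    rw [h1, iha _ h2, ihb _ h3]
  | sub a b iha ihb =>
    simp only [Sat] at h
    obtain ⟨h1, h2, h3, h4⟩ := h
    simp only [T.ev]
    rw [← iha _ h3, ← ihb _ h4]
    rcases Nat.mul_eq_zero.1 h2 with h5 | h5 <;> omega
  | mul a b iha ihb =>
    simp only [Sat] at h
    obtain ⟨h1, h2, h3⟩ := h
    simp only [T.ev]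
    rw [h1, iha _ h2, ihb _ h3]
  | divS a b iha ihb =>
    simp only [Sat] at h
    obtain ⟨h1, h2, h3, h4⟩ := h
    simp only [T.ev]
    rw [← iha _ h3, ← ihb _ h4, h1, Nat.mul_add_div (by omega),
      Nat.div_eq_of_lt (by omega : v (s + 1) < v (s + 3 + a.size) + 1)]
    omega
  | pow2 a iha =>
    simp only [Sat] at h
    obtain ⟨h1, h2⟩ := h
    simp only [T.ev]
    rw [h1, iha _ h2]

theorem sat_unique (t : T) (s : ℕ) (ρ v v' : ℕ → ℕ) (h0 : v 0 = v' 0) (h : Sat t s ρ v)
    (h' : Sat t s ρ v') : ∀ k, s ≤ k → k < s + t.size → v k = v' k := by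
  have hout : ∀ (t : T) (s : ℕ), Sat t s ρ v → Sat t s ρ v' → v s = v' s := by
    intro t s h h'
    rw [sat_out t s ρ v h, sat_out t s ρ v' h', h0]
  induction t generalizing s with
  | var i =>
    intro k h1 h2
    have e : k = s := by simp only [T.size] at h2; omega
    subst e
    exact hout _ _ h h'
  | const c =>
    intro k h1 h2
    have e : k = s := by simp only [T.size] at h2; omega
    subst e
    exact hout _ _ h h'
  | add a b iha ihb =>
    intro k h1 h2
    simp only [T.size] at h2
    have hs := hout _ _ h h'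
    simp only [Sat] at h h'
    obtain ⟨e1, e2, e3⟩ := h
    obtain ⟨e1', e2', e3'⟩ := h'
    rcases (by omega : k = s ∨ (s + 1 ≤ k ∧ k < s + 1 + a.size) ∨
      (s + 1 + a.size ≤ k ∧ k < s + 1 + a.size + b.size)) with h3 | ⟨h3, h4⟩ | ⟨h3, h4⟩
    · rw [h3]; exact hs
    · exact iha _ e2 e2' k h3 h4
    · exact ihb _ e3 e3' k h3 h4
  | sub a b iha ihb =>
    intro k h1 h2
    simp only [T.size] at h2
    have hs := hout _ _ h h'
    simp only [Sat] at h h'
    obtain ⟨e1, f1, e2, e3⟩ := h
    obtain ⟨e1', f1', e2', e3'⟩ := h'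
    have ha := hout _ _ e2 e2'
    have hb := hout _ _ e3 e3'
    rcases (by omega : k = s ∨ k = s + 1 ∨ (s + 2 ≤ k ∧ k < s + 2 + a.size) ∨
      (s + 2 + a.size ≤ k ∧ k < s + 2 + a.size + b.size)) with h3 | h3 | ⟨h3, h4⟩ | ⟨h3, h4⟩
    · rw [h3]; exact hs
    · rw [h3]; omega
    · exact iha _ e2 e2' k h3 h4
    · exact ihb _ e3 e3' k h3 h4
  | mul a b iha ihb =>
    intro k h1 h2
    simp only [T.size] at h2
    have hs := hout _ _ h h'
    simp only [Sat] at h h'
    obtain ⟨e1, e2, e3⟩ := h
    obtain ⟨e1', e2', e3'⟩ := h'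
    rcases (by omega : k = s ∨ (s + 1 ≤ k ∧ k < s + 1 + a.size) ∨
      (s + 1 + a.size ≤ k ∧ k < s + 1 + a.size + b.size)) with h3 | ⟨h3, h4⟩ | ⟨h3, h4⟩
    · rw [h3]; exact hs
    · exact iha _ e2 e2' k h3 h4
    · exact ihb _ e3 e3' k h3 h4
  | divS a b iha ihb =>
    intro k h1 h2
    simp only [T.size] at h2
    have hs := hout _ _ h h'
    simp only [Sat] at h h'
    obtain ⟨e1, f1, e2, e3⟩ := h
    obtain ⟨e1', f1', e2', e3'⟩ := h'
    have ha := hout _ _ e2 e2'
    have hb := hout _ _ e3 e3'
    rw [ha, hb, hs] at e1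
    have hr : v (s + 1) = v' (s + 1) := by omega
    rcases (by omega : k = s ∨ k = s + 1 ∨ k = s + 2 ∨ (s + 3 ≤ k ∧ k < s + 3 + a.size) ∨
      (s + 3 + a.size ≤ k ∧ k < s + 3 + a.size + b.size)) with
      h3 | h3 | h3 | ⟨h3, h4⟩ | ⟨h3, h4⟩
    · rw [h3]; exact hs
    · rw [h3]; exact hr
    · rw [h3]; omega
    · exact iha _ e2 e2' k h3 h4
    · exact ihb _ e3 e3' k h3 h4
  | pow2 a iha =>
    intro k h1 h2
    simp only [T.size] at h2
    have hs := hout _ _ h h'
    simp only [Sat] at h h'
    obtain ⟨e1, e2⟩ := h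
    obtain ⟨e1', e2'⟩ := h'
    rcases (by omega : k = s ∨ (s + 1 ≤ k ∧ k < s + 1 + a.size)) with h3 | ⟨h3, h4⟩
    · rw [h3]; exact hs
    · exact iha _ e2 e2' k h3 h4

end Pool.Agent.CFK
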